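import Pool.Agent.Work.MP_f2148a_nt.M56.G4.Plane

set_option autoImplicit false

/-!
# MP_f2148a_nt, block G4: entries of the rows `W^i` (all proved)

`W2` is the derivation `W u = -j(u)`, `W r = h(u,r)/2` of `ℝ[u, r]` (`u = X 0`, `r = X 1`).
`entry`: at a point with `|r| ≤ ρ ≤ 1/5`, `|u p₁(r) + p₂(r)| ≤ g ≤ 1` the row
`f ↦ (W^i f)(u, r)` on the monomials `u^a r^k`, `a ≤ M`, is a linear functional `Φ` of
`(γ - p₂(r))^a p₁(r)^(M-a) r^k`, and `|Φ (γ^j r^b)| ≤ 2^M g^j ρ^b (C (1 + (|c|+g)/ρ) (M+j+b+16 i))^i`.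
-/

namespace Pool.Agent.Work.MP_f2148a_nt.M56.G4

open MvPolynomial

/-- The flat derivation in the plane `(u, r)`. -/
noncomputable def W2 (l c : ℝ) :
    Derivation ℝ (MvPolynomial (Fin 2) ℝ) (MvPolynomial (Fin 2) ℝ) :=
  mkDerivation ℝ ![-jf (algebraMap ℝ _ l) (algebraMap ℝ _ c) (X 0),
    algebraMap ℝ _ (1 / 2) * hf (algebraMap ℝ _ l) (algebraMap ℝ _ c) (X 0) (X 1)]

/-- `u` in the ring `ℝ[r, γ, π]` -/
noncomputable def u3 (l c : ℝ) : MvPolynomial (Fin 3) ℝ :=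
  (X 1 - pb (algebraMap ℝ _ l) (algebraMap ℝ _ c) (X 0)) * X 2

/-- `W r` in the ring `ℝ[r, γ, π]` -/
noncomputable def r3 (l c : ℝ) : MvPolynomial (Fin 3) ℝ :=
  algebraMap ℝ _ (1 / 2) * hf (algebraMap ℝ _ l) (algebraMap ℝ _ c) (u3 l c) (X 0)

/-- The same derivation in the ring `ℝ[r, γ, π]`, `γ = u p₁ + p₂`, `π = 1 / p₁(r)`. -/
noncomputable def W3 (l c : ℝ) :
    Derivation ℝ (MvPolynomial (Fin 3) ℝ) (MvPolynomial (Fin 3) ℝ) :=
  mkDerivation ℝ ![r3 l c,
    X 1 * bf (algebraMap ℝ _ l) (algebraMap ℝ _ c) (u3 l c) (X 0),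
    -(X 2 ^ 2 * (pa' (algebraMap ℝ _ l) (algebraMap ℝ _ c) (X 0) * r3 l c))]

theorem W2_zero (l c : ℝ) : W2 l c (X 0) = -jf (algebraMap ℝ _ l) (algebraMap ℝ _ c) (X 0) := by
  rw [W2, mkDerivation_X]
  rfl

theorem W2_one (l c : ℝ) : W2 l c (X 1) =
    algebraMap ℝ _ (1 / 2) * hf (algebraMap ℝ _ l) (algebraMap ℝ _ c) (X 0) (X 1) := by
  rw [W2, mkDerivation_X]
  rfl

theorem W3_zero (l c : ℝ) : W3 l c (X 0) = r3 l c := by
  rw [W3, mkDerivation_X]
  rfl

theorem W3_one (l c : ℝ) : W3 l c (X 1) =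
    X 1 * bf (algebraMap ℝ _ l) (algebraMap ℝ _ c) (u3 l c) (X 0) := by
  rw [W3, mkDerivation_X]
  rfl

theorem W3_two (l c : ℝ) : W3 l c (X 2) =
    -(X 2 ^ 2 * (pa' (algebraMap ℝ _ l) (algebraMap ℝ _ c) (X 0) * r3 l c)) := by
  rw [W3, mkDerivation_X]
  rfl

section chain

variable {A : Type*} [CommRing A] [Algebra ℝ A] (d : Derivation ℝ A A)

/-- The homomorphism `ℝ[r, γ, π] → A`. -/
noncomputable def chi (l c : ℝ) (u r q : A) : MvPolynomial (Fin 3) ℝ →ₐ[ℝ] A :=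
  aeval ![r, u * pa (algebraMap ℝ A l) (algebraMap ℝ A c) r +
    pb (algebraMap ℝ A l) (algebraMap ℝ A c) r, q]

variable {l c : ℝ} {u r q : A}

theorem chi_zero : chi l c u r q (X 0) = r := by
  rw [chi, aeval_X]
  rfl

theorem chi_one : chi l c u r q (X 1) = u * pa (algebraMap ℝ A l) (algebraMap ℝ A c) r +
    pb (algebraMap ℝ A l) (algebraMap ℝ A c) r := by
  rw [chi, aeval_X]
  rfl

theorem chi_two : chi l c u r q (X 2) = q := by
  rw [chi, aeval_X]
  rfl

private theorem chi_pb (x : MvPolynomial (Fin 3) ℝ) :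
    chi l c u r q (pb (algebraMap ℝ _ l) (algebraMap ℝ _ c) x) =
      pb (algebraMap ℝ _ l) (algebraMap ℝ _ c) (chi l c u r q x) := by
  have h := map_pb (chi l c u r q : MvPolynomial (Fin 3) ℝ →+* A) (algebraMap ℝ _ l)
    (algebraMap ℝ _ c) x
  simpa only [RingHom.coe_coe, AlgHom.commutes] using h

private theorem chi_pa (x : MvPolynomial (Fin 3) ℝ) :
    chi l c u r q (pa (algebraMap ℝ _ l) (algebraMap ℝ _ c) x) =
      pa (algebraMap ℝ _ l) (algebraMap ℝ _ c) (chi l c u r q x) := by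
  have h := map_pa (chi l c u r q : MvPolynomial (Fin 3) ℝ →+* A) (algebraMap ℝ _ l)
    (algebraMap ℝ _ c) x
  simpa only [RingHom.coe_coe, AlgHom.commutes] using h

private theorem chi_pa' (x : MvPolynomial (Fin 3) ℝ) :
    chi l c u r q (pa' (algebraMap ℝ _ l) (algebraMap ℝ _ c) x) =
      pa' (algebraMap ℝ _ l) (algebraMap ℝ _ c) (chi l c u r q x) := by
  have h := map_pa' (chi l c u r q : MvPolynomial (Fin 3) ℝ →+* A) (algebraMap ℝ _ l)
    (algebraMap ℝ _ c) x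
  simpa only [RingHom.coe_coe, AlgHom.commutes] using h

private theorem chi_hf (x y : MvPolynomial (Fin 3) ℝ) :
    chi l c u r q (hf (algebraMap ℝ _ l) (algebraMap ℝ _ c) x y) =
      hf (algebraMap ℝ _ l) (algebraMap ℝ _ c) (chi l c u r q x) (chi l c u r q y) := by
  have h := map_hf (chi l c u r q : MvPolynomial (Fin 3) ℝ →+* A) (algebraMap ℝ _ l)
    (algebraMap ℝ _ c) x y
  simpa only [RingHom.coe_coe, AlgHom.commutes] using h

private theorem chi_bf (x y : MvPolynomial (Fin 3) ℝ) :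
    chi l c u r q (bf (algebraMap ℝ _ l) (algebraMap ℝ _ c) x y) =
      bf (algebraMap ℝ _ l) (algebraMap ℝ _ c) (chi l c u r q x) (chi l c u r q y) := by
  have h := map_bf (chi l c u r q : MvPolynomial (Fin 3) ℝ →+* A) (algebraMap ℝ _ l)
    (algebraMap ℝ _ c) x y
  simpa only [RingHom.coe_coe, AlgHom.commutes] using h

theorem chi_u3 (hq : pa (algebraMap ℝ A l) (algebraMap ℝ A c) r * q = 1) :
    chi l c u r q (u3 l c) = u := by
  rw [u3, map_mul, map_sub, chi_pb, chi_zero, chi_one, chi_two, add_sub_cancel_right,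
    mul_assoc, hq, mul_one]

/-- The derivation `W3` is compatible with `d` under `chi`. -/
theorem chi_comm (hq : pa (algebraMap ℝ A l) (algebraMap ℝ A c) r * q = 1)
    (hu : d u = -jf (algebraMap ℝ A l) (algebraMap ℝ A c) u)
    (hr : d r = algebraMap ℝ A (1 / 2) * hf (algebraMap ℝ A l) (algebraMap ℝ A c) u r)
    (f : MvPolynomial (Fin 3) ℝ) : d (chi l c u r q f) = chi l c u r q (W3 l c f) := by
  have e3 : chi l c u r q (r3 l c) = d r := by
    rw [r3, map_mul, AlgHom.commutes, chi_hf, chi_u3 hq, chi_zero, hr]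
  refine comm_of_X _ _ _ (fun i => ?_) f
  fin_cases i
  · change d (chi l c u r q (X 0)) = chi l c u r q (W3 l c (X 0))
    rw [W3_zero, e3, chi_zero]
  · change d (chi l c u r q (X 1)) = chi l c u r q (W3 l c (X 1))
    rw [W3_one, map_mul, chi_bf, chi_u3 hq, chi_zero, chi_one, map_add, d.leibniz, der_pa,
      der_pb, smul_eq_mul, smul_eq_mul, hu, hr]
    have h1 := flat_id (algebraMap ℝ A l) (algebraMap ℝ A c) u r
    have h2 : (2 : A) * algebraMap ℝ A (1 / 2) = 1 := by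
      rw [← map_ofNat (algebraMap ℝ A) 2, ← map_mul]
      norm_num
    have h3 := congrArg (fun x => algebraMap ℝ A (1 / 2) * x) h1
    linear_combination h3 + (jf (algebraMap ℝ A l) (algebraMap ℝ A c) u *
      pa (algebraMap ℝ A l) (algebraMap ℝ A c) r +
      (u * pa (algebraMap ℝ A l) (algebraMap ℝ A c) r +
        pb (algebraMap ℝ A l) (algebraMap ℝ A c) r) *
        bf (algebraMap ℝ A l) (algebraMap ℝ A c) u r) * h2
  · change d (chi l c u r q (X 2)) = chi l c u r q (W3 l c (X 2))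
    rw [W3_two, map_neg, map_mul, map_pow, map_mul, chi_pa', e3, chi_zero, chi_two]
    have h1 := congrArg d hq
    rw [d.leibniz, der_pa, Derivation.map_one_eq_zero, smul_eq_mul, smul_eq_mul] at h1
    linear_combination (q : A) * h1 - d q * hq

end chain

end Pool.Agent.Work.MP_f2148a_nt.M56.G4
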