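import Pool.Agent.Work.MP_f2148a_nt.M56.G4.Plane
import Pool.Agent.Work.MP_f2148a_nt.M56.G4.Entry

set_option autoImplicit false
set_option linter.unusedSimpArgs false

/-!
# MP_f2148a_nt, block G4: the rows of the flat derivation `V` in terms of `W` (all proved)

`V4 l c e₁ e₂` is the flat derivation of `ℝ[d₁, d₂, ξ, υ]` in the direction `e`. On forms of
bidegree `(M, N)` the row `V^i` at a point is `(⟨d,e⟩ d₂)^i d₂^M ξ^N` times the row `W^i` plus a
combination of the rows `W^i'`, `i' < i` (`rel`).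
-/

namespace Pool.Agent.Work.MP_f2148a_nt.M56.G4

open MvPolynomial

section generic

variable {A : Type*} [CommRing A]

/-- `J₄(d₁, d₂)` -/
def J4 (l c x y : A) : A :=
  (16 * l ^ 3 - c ^ 2) * x ^ 3 + 6 * l * c * x ^ 2 * y + 3 * l ^ 2 * x * y ^ 2 + c * y ^ 3

/-- `∂h/∂ξ` -/
def hX (l c x y z t : A) : A :=
  2 * (c * y + 4 * l ^ 2 * x) * z + (2 * l ^ 2 * y - 2 * l * c * x) * t

/-- `∂h/∂υ` -/
def hY (l c x y z t : A) : A :=
  (2 * l ^ 2 * y - 2 * l * c * x) * z + 2 * (4 * l ^ 3 * x + 2 * l * c * y - c ^ 2 * x) * t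

variable {B : Type*} [CommRing B] (f : A →+* B)

theorem map_J4 (l c x y : A) : f (J4 l c x y) = J4 (f l) (f c) (f x) (f y) := by
  simp only [J4, map_sub, map_add, map_neg, map_mul, map_pow, map_one, map_zero, map_ofNat]
theorem map_hX (l c x y z t : A) :
    f (hX l c x y z t) = hX (f l) (f c) (f x) (f y) (f z) (f t) := by
  simp only [hX, map_sub, map_add, map_neg, map_mul, map_pow, map_one, map_zero, map_ofNat]
theorem map_hY (l c x y z t : A) :
    f (hY l c x y z t) = hY (f l) (f c) (f x) (f y) (f z) (f t) := by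
  simp only [hY, map_sub, map_add, map_neg, map_mul, map_pow, map_one, map_zero, map_ofNat]

end generic

/-- The flat derivation `V_e = J₄ ∂_e - (1/4)⟨d,e⟩ (h_υ ∂_ξ - h_ξ ∂_υ)` of `ℝ[d₁, d₂, ξ, υ]`. -/
noncomputable def V4 (l c e₁ e₂ : ℝ) :
    Derivation ℝ (MvPolynomial (Fin 4) ℝ) (MvPolynomial (Fin 4) ℝ) :=
  mkDerivation ℝ ![J4 (algebraMap ℝ _ l) (algebraMap ℝ _ c) (X 0) (X 1) * algebraMap ℝ _ e₁,
    J4 (algebraMap ℝ _ l) (algebraMap ℝ _ c) (X 0) (X 1) * algebraMap ℝ _ e₂,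
    -(algebraMap ℝ _ (1 / 4) * (X 0 * algebraMap ℝ _ e₂ - X 1 * algebraMap ℝ _ e₁) *
      hY (algebraMap ℝ _ l) (algebraMap ℝ _ c) (X 0) (X 1) (X 2) (X 3)),
    algebraMap ℝ _ (1 / 4) * (X 0 * algebraMap ℝ _ e₂ - X 1 * algebraMap ℝ _ e₁) *
      hX (algebraMap ℝ _ l) (algebraMap ℝ _ c) (X 0) (X 1) (X 2) (X 3)]

section chain

variable {A : Type*} [CommRing A] [Algebra ℝ A] (d : Derivation ℝ A A)

/-- Derivatives of `u = d₁/d₂` and `r = υ/ξ`. -/
theorem der_ur {l c e₁ e₂ : ℝ} {x y z t i₂ ix : A} (h2 : y * i₂ = 1) (hx : z * ix = 1)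
    (dx : d x = J4 (algebraMap ℝ A l) (algebraMap ℝ A c) x y * algebraMap ℝ A e₁)
    (dy : d y = J4 (algebraMap ℝ A l) (algebraMap ℝ A c) x y * algebraMap ℝ A e₂)
    (dz : d z = -(algebraMap ℝ A (1 / 4) * (x * algebraMap ℝ A e₂ - y * algebraMap ℝ A e₁) *
      hY (algebraMap ℝ A l) (algebraMap ℝ A c) x y z t))
    (dt : d t = algebraMap ℝ A (1 / 4) * (x * algebraMap ℝ A e₂ - y * algebraMap ℝ A e₁) *
      hX (algebraMap ℝ A l) (algebraMap ℝ A c) x y z t) :
    d (x * i₂) = ((x * algebraMap ℝ A e₂ - y * algebraMap ℝ A e₁) * y) *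
      -jf (algebraMap ℝ A l) (algebraMap ℝ A c) (x * i₂) ∧
    d (t * ix) = ((x * algebraMap ℝ A e₂ - y * algebraMap ℝ A e₁) * y) *
      (algebraMap ℝ A (1 / 2) * hf (algebraMap ℝ A l) (algebraMap ℝ A c) (x * i₂) (t * ix)) := by
  have d2 : y * d i₂ + i₂ * d y = 0 := by
    have h := congrArg d h2
    rwa [d.leibniz, Derivation.map_one_eq_zero, smul_eq_mul, smul_eq_mul] at h
  have dX : z * d ix + ix * d z = 0 := by
    have h := congrArg d hx
    rwa [d.leibniz, Derivation.map_one_eq_zero, smul_eq_mul, smul_eq_mul] at h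
  have e2 : d i₂ = -(i₂ ^ 2 * d y) := by
    linear_combination i₂ * d2 - d i₂ * h2
  have eX : d ix = -(ix ^ 2 * d z) := by
    linear_combination ix * dX - d ix * hx
  have h4 : (4 : A) * algebraMap ℝ A (1 / 4) = 1 := by
    rw [← map_ofNat (algebraMap ℝ A) 4, ← map_mul]
    norm_num
  have h42 : algebraMap ℝ A (1 / 2) = 2 * algebraMap ℝ A (1 / 4) := by
    rw [← map_ofNat (algebraMap ℝ A) 2, ← map_mul]
    norm_num
  obtain ⟨q, hq⟩ : ∃ q, q = algebraMap ℝ A (1 / 4) := ⟨_, rfl⟩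
  obtain ⟨L, hL⟩ : ∃ L, L = algebraMap ℝ A l := ⟨_, rfl⟩
  obtain ⟨G, hG⟩ : ∃ G, G = algebraMap ℝ A c := ⟨_, rfl⟩
  obtain ⟨E1, hE1⟩ : ∃ E1, E1 = algebraMap ℝ A e₁ := ⟨_, rfl⟩
  obtain ⟨E2, hE2⟩ : ∃ E2, E2 = algebraMap ℝ A e₂ := ⟨_, rfl⟩
  rw [← hq] at h42 dz dt
  simp only [← hL, ← hG, ← hE1, ← hE2] at dx dy dz dt ⊢
  rw [h42]
  -- `x = (x i₂) y`, `t = (t ix) z`
  obtain ⟨u, hu⟩ : ∃ u, u = x * i₂ := ⟨_, rfl⟩
  obtain ⟨r, hr⟩ : ∃ r, r = t * ix := ⟨_, rfl⟩
  have hxu : x = u * y := by rw [hu]; linear_combination (-x) * h2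
  have htr : t = r * z := by rw [hr]; linear_combination (-t) * hx
  have hJ : J4 L G x y = y ^ 3 * jf L G u := by
    rw [hxu]
    unfold J4 jf
    ring
  have hYe : hY L G x y z t = y * z * ((2 * L ^ 2 - 2 * L * G * u) +
      2 * (4 * L ^ 3 * u + 2 * L * G - G ^ 2 * u) * r) := by
    rw [hxu, htr]
    unfold hY
    ring
  have hXe : hX L G x y z t = y * z * (2 * (G + 4 * L ^ 2 * u) +
      (2 * L ^ 2 - 2 * L * G * u) * r) := by
    rw [hxu, htr]
    unfold hX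
    ring
  constructor
  · rw [d.leibniz, smul_eq_mul, smul_eq_mul, e2, dx, dy, hJ, ← hu]
    have h5 : y ^ 3 * i₂ = y ^ 2 := by linear_combination y ^ 2 * h2
    have h6 : x * i₂ ^ 2 * y ^ 3 = x * y := by
      linear_combination (x * y ^ 2 * i₂ + x * y) * h2
    linear_combination (jf L G u * E1) * h5 - (jf L G u * E2) * h6
  · rw [d.leibniz, smul_eq_mul, smul_eq_mul, eX, dz, dt, hYe, hXe, ← hu, ← hr]
    have h5 : z * ix = 1 := hx
    have h7 : t * ix ^ 2 * z = r := by rw [hr]; linear_combination (t * ix) * hx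
    unfold hf
    linear_combination (q * (x * E2 - y * E1) * y * (2 * (G + 4 * L ^ 2 * u) +
      (2 * L ^ 2 - 2 * L * G * u) * r)) * h5 + (q * (x * E2 - y * E1) * y *
      ((2 * L ^ 2 - 2 * L * G * u) + 2 * (4 * L ^ 3 * u + 2 * L * G - G ^ 2 * u) * r)) * h7

/-- Twisted iterates: `d^i (m ψ(g)) = ∑ C i i' ψ(D^i' g)` with `C i i = s^i m`. -/
theorem twisted {R : Type*} [CommRing R] [Algebra ℝ R] (D : Derivation ℝ R R) (ψ : R →ₐ[ℝ] A)
    (s : A) (h : ∀ g, d (ψ g) = s * ψ (D g)) (m : A) :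
    ∃ C : ℕ → ℕ → A, (∀ i, C i i = s ^ i * m) ∧ ∀ i g, (fun x => d x)^[i] (m * ψ g) =
      ∑ j ∈ Finset.range (i + 1), C i j * ψ ((fun x => D x)^[j] g) := by
  -- `C (i+1) j = d (C i j) + s * C i (j-1)`, zero for `j > i`
  let C : ℕ → ℕ → A := fun i => Nat.rec (motive := fun _ => ℕ → A)
    (fun j => if j = 0 then m else 0)
    (fun _ c j => d (c j) + if j = 0 then 0 else s * c (j - 1)) i
  have C0 : ∀ j, C 0 j = if j = 0 then m else 0 := fun _ => rfl
  have CS : ∀ i j, C (i + 1) j = d (C i j) + if j = 0 then 0 else s * C i (j - 1) :=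
    fun _ _ => rfl
  have hz : ∀ i j, i < j → C i j = 0 := by
    intro i
    induction i with
    | zero =>
      intro j hj
      rw [C0, if_neg (by omega)]
    | succ i ih =>
      intro j hj
      rw [CS, ih j (by omega), map_zero, if_neg (by omega), ih (j - 1) (by omega), mul_zero,
        add_zero]
  have hsucc : ∀ i (g : A), (fun x => d x)^[i + 1] g = d ((fun x => d x)^[i] g) := by
    intro i g
    rw [Function.iterate_succ_apply']
  have hsucc' : ∀ i (g : R), (fun x => D x)^[i + 1] g = D ((fun x => D x)^[i] g) := by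
    intro i g
    rw [Function.iterate_succ_apply']
  refine ⟨C, fun i => ?_, fun i g => ?_⟩
  · induction i with
    | zero => rw [C0, if_pos rfl, pow_zero, one_mul]
    | succ i ih =>
      rw [CS, hz i (i + 1) (Nat.lt_succ_self i), map_zero, zero_add, if_neg (Nat.succ_ne_zero i),
        Nat.add_sub_cancel, ih, pow_succ]
      ring
  · induction i with
    | zero =>
      rw [Finset.sum_range_one, C0, if_pos rfl]
      rfl
    | succ i ih =>
      rw [hsucc, ih, map_sum,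
        Finset.sum_range_succ' (fun j => C (i + 1) j * ψ ((fun x => D x)^[j] g))]
      have h1 : ∀ j, d (C i j * ψ ((fun x => D x)^[j] g)) =
          d (C i j) * ψ ((fun x => D x)^[j] g) + s * C i j * ψ ((fun x => D x)^[j + 1] g) := by
        intro j
        rw [d.leibniz, smul_eq_mul, smul_eq_mul, h, hsucc']
        ring
      simp_rw [h1]
      rw [Finset.sum_add_distrib, Finset.sum_range_succ' (fun j =>
        d (C i j) * ψ ((fun x => D x)^[j] g)), CS i 0, if_pos rfl, add_zero]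
      have h2 : ∑ j ∈ Finset.range (i + 1), C (i + 1) (j + 1) * ψ ((fun x => D x)^[j + 1] g) =
          ∑ j ∈ Finset.range i, d (C i (j + 1)) * ψ ((fun x => D x)^[j + 1] g) +
          ∑ j ∈ Finset.range (i + 1), s * C i j * ψ ((fun x => D x)^[j + 1] g) := by
        have h3 : ∑ j ∈ Finset.range i, d (C i (j + 1)) * ψ ((fun x => D x)^[j + 1] g) =
            ∑ j ∈ Finset.range (i + 1), d (C i (j + 1)) * ψ ((fun x => D x)^[j + 1] g) := by
          rw [Finset.sum_range_succ, hz i (i + 1) (Nat.lt_succ_self i), map_zero, zero_mul,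
            add_zero]
        rw [h3, ← Finset.sum_add_distrib]
        refine Finset.sum_congr rfl fun j _ => ?_
        rw [CS, if_neg (Nat.succ_ne_zero j), Nat.add_sub_cancel]
        ring
      rw [h2]
      ring

end chain

theorem V4_zero (l c e₁ e₂ : ℝ) : V4 l c e₁ e₂ (X 0) =
    J4 (algebraMap ℝ _ l) (algebraMap ℝ _ c) (X 0) (X 1) * algebraMap ℝ _ e₁ := by
  rw [V4, mkDerivation_X]
  rfl

theorem V4_one (l c e₁ e₂ : ℝ) : V4 l c e₁ e₂ (X 1) =
    J4 (algebraMap ℝ _ l) (algebraMap ℝ _ c) (X 0) (X 1) * algebraMap ℝ _ e₂ := by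
  rw [V4, mkDerivation_X]
  rfl

theorem V4_two (l c e₁ e₂ : ℝ) : V4 l c e₁ e₂ (X 2) =
    -(algebraMap ℝ _ (1 / 4) * (X 0 * algebraMap ℝ _ e₂ - X 1 * algebraMap ℝ _ e₁) *
      hY (algebraMap ℝ _ l) (algebraMap ℝ _ c) (X 0) (X 1) (X 2) (X 3)) := by
  rw [V4, mkDerivation_X]
  rfl

theorem V4_three (l c e₁ e₂ : ℝ) : V4 l c e₁ e₂ (X 3) =
    algebraMap ℝ _ (1 / 4) * (X 0 * algebraMap ℝ _ e₂ - X 1 * algebraMap ℝ _ e₁) *
      hX (algebraMap ℝ _ l) (algebraMap ℝ _ c) (X 0) (X 1) (X 2) (X 3) := by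
  rw [V4, mkDerivation_X]
  rfl

/-- The row `V^i` at the point `(d₁, d₂, ξ, υ)` is `(⟨d,e⟩ d₂)^i d₂^M ξ^N` times the row `W^i` at
`(d₁/d₂, υ/ξ)` plus a combination of rows of smaller order. -/
theorem rel (l c e₁ e₂ : ℝ) (d₁ d₂ ξ υ : ℝ) (h2 : d₂ ≠ 0) (hξ : ξ ≠ 0) (M N : ℕ) :
    ∃ C : ℕ → ℕ → ℝ, (∀ i, C i i = ((d₁ * e₂ - d₂ * e₁) * d₂) ^ i * (d₂ ^ M * ξ ^ N)) ∧
      ∀ i a k, a ≤ M → k ≤ N →
        aeval ![d₁, d₂, ξ, υ] ((fun x => V4 l c e₁ e₂ x)^[i]
          (X 0 ^ a * X 1 ^ (M - a) * (X 2 ^ (N - k) * X 3 ^ k))) =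
        ∑ j ∈ Finset.range (i + 1), C i j *
          aeval ![d₁ / d₂, υ / ξ] ((fun x => W2 l c x)^[j] (X 0 ^ a * X 1 ^ k)) := by
  set e : MvPolynomial (Fin 4) ℝ →ₐ[ℝ] ℝ := aeval ![d₁, d₂, ξ, υ] with he
  have he0 : e (X 0) = d₁ := by rw [he, aeval_X]; rfl
  have he1 : e (X 1) = d₂ := by rw [he, aeval_X]; rfl
  have he2 : e (X 2) = ξ := by rw [he, aeval_X]; rfl
  have he3 : e (X 3) = υ := by rw [he, aeval_X]; rfl
  set φ := flow (V4 l c e₁ e₂) e with hφ
  obtain ⟨x, hx⟩ : ∃ x, x = φ (X 0) := ⟨_, rfl⟩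
  obtain ⟨y, hy⟩ : ∃ y, y = φ (X 1) := ⟨_, rfl⟩
  obtain ⟨z, hz⟩ : ∃ z, z = φ (X 2) := ⟨_, rfl⟩
  obtain ⟨t, ht⟩ : ∃ t, t = φ (X 3) := ⟨_, rfl⟩
  have cx : PowerSeries.constantCoeff x = d₁ := by rw [hx, hφ, constantCoeff_flow, he0]
  have cy : PowerSeries.constantCoeff y = d₂ := by rw [hy, hφ, constantCoeff_flow, he1]
  have cz : PowerSeries.constantCoeff z = ξ := by rw [hz, hφ, constantCoeff_flow, he2]
  have ct : PowerSeries.constantCoeff t = υ := by rw [ht, hφ, constantCoeff_flow, he3]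
  have iy : y * y⁻¹ = 1 := PowerSeries.mul_inv_cancel _ (by rw [cy]; exact h2)
  have iz : z * z⁻¹ = 1 := PowerSeries.mul_inv_cancel _ (by rw [cz]; exact hξ)
  have dx : PowerSeries.derivative ℝ x =
      J4 (algebraMap ℝ _ l) (algebraMap ℝ _ c) x y * algebraMap ℝ _ e₁ := by
    rw [hx, hφ, derivative_flow, V4_zero, map_mul, AlgHom.commutes]
    have h := map_J4 (φ : MvPolynomial (Fin 4) ℝ →+* PowerSeries ℝ) (algebraMap ℝ _ l)
      (algebraMap ℝ _ c) (X 0) (X 1)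
    simp only [RingHom.coe_coe, AlgHom.commutes] at h
    rw [← hφ, h, hy]
  have dy : PowerSeries.derivative ℝ y =
      J4 (algebraMap ℝ _ l) (algebraMap ℝ _ c) x y * algebraMap ℝ _ e₂ := by
    rw [hy, hφ, derivative_flow, V4_one, map_mul, AlgHom.commutes]
    have h := map_J4 (φ : MvPolynomial (Fin 4) ℝ →+* PowerSeries ℝ) (algebraMap ℝ _ l)
      (algebraMap ℝ _ c) (X 0) (X 1)
    simp only [RingHom.coe_coe, AlgHom.commutes] at h
    rw [← hφ, h, hx]
  have dz : PowerSeries.derivative ℝ z =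
      -(algebraMap ℝ _ (1 / 4) * (x * algebraMap ℝ _ e₂ - y * algebraMap ℝ _ e₁) *
      hY (algebraMap ℝ _ l) (algebraMap ℝ _ c) x y z t) := by
    rw [hz, hφ, derivative_flow, V4_two, map_neg, map_mul, map_mul, map_sub, map_mul, map_mul,
      AlgHom.commutes, AlgHom.commutes, AlgHom.commutes]
    have h := map_hY (φ : MvPolynomial (Fin 4) ℝ →+* PowerSeries ℝ) (algebraMap ℝ _ l)
      (algebraMap ℝ _ c) (X 0) (X 1) (X 2) (X 3)
    simp only [RingHom.coe_coe, AlgHom.commutes] at h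
    rw [← hφ, h, hx, hy, ht]
  have dt : PowerSeries.derivative ℝ t =
      algebraMap ℝ _ (1 / 4) * (x * algebraMap ℝ _ e₂ - y * algebraMap ℝ _ e₁) *
      hX (algebraMap ℝ _ l) (algebraMap ℝ _ c) x y z t := by
    rw [ht, hφ, derivative_flow, V4_three, map_mul, map_mul, map_sub, map_mul, map_mul,
      AlgHom.commutes, AlgHom.commutes, AlgHom.commutes]
    have h := map_hX (φ : MvPolynomial (Fin 4) ℝ →+* PowerSeries ℝ) (algebraMap ℝ _ l)
      (algebraMap ℝ _ c) (X 0) (X 1) (X 2) (X 3)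
    simp only [RingHom.coe_coe, AlgHom.commutes] at h
    rw [← hφ, h, hx, hy, hz]
  obtain ⟨du, dr⟩ := der_ur (PowerSeries.derivative ℝ) iy iz dx dy dz dt
  set u := x * y⁻¹ with hu
  set r := t * z⁻¹ with hr
  set s := (x * algebraMap ℝ (PowerSeries ℝ) e₂ - y * algebraMap ℝ _ e₁) * y with hs
  -- the homomorphism `(u, r)`
  set ψ : MvPolynomial (Fin 2) ℝ →ₐ[ℝ] PowerSeries ℝ := aeval ![u, r] with hψ
  have hψ0 : ψ (X 0) = u := by rw [hψ, aeval_X]; rfl
  have hψ1 : ψ (X 1) = r := by rw [hψ, aeval_X]; rfl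
  have hψd : ∀ g, PowerSeries.derivative ℝ (ψ g) = s * ψ (W2 l c g) := by
    intro g
    induction g using MvPolynomial.induction_on with
    | C a =>
      rw [← algebraMap_eq, AlgHom.commutes, Derivation.map_algebraMap, Derivation.map_algebraMap,
        map_zero, mul_zero]
    | add p q hp hq => rw [map_add, map_add, map_add, map_add, hp, hq, mul_add]
    | mul_X p i hp =>
      have hi : PowerSeries.derivative ℝ (ψ (X i)) = s * ψ (W2 l c (X i)) := by
        fin_cases i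
        · change PowerSeries.derivative ℝ (ψ (X 0)) = s * ψ (W2 l c (X 0))
          rw [hψ0, du, W2_zero, map_neg]
          have h := map_jf (ψ : MvPolynomial (Fin 2) ℝ →+* PowerSeries ℝ) (algebraMap ℝ _ l)
            (algebraMap ℝ _ c) (X 0)
          simp only [RingHom.coe_coe, AlgHom.commutes, hψ0] at h
          rw [h]
        · change PowerSeries.derivative ℝ (ψ (X 1)) = s * ψ (W2 l c (X 1))
          rw [hψ1, dr, W2_one, map_mul, AlgHom.commutes]
          have h := map_hf (ψ : MvPolynomial (Fin 2) ℝ →+* PowerSeries ℝ) (algebraMap ℝ _ l)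
            (algebraMap ℝ _ c) (X 0) (X 1)
          simp only [RingHom.coe_coe, AlgHom.commutes, hψ0, hψ1] at h
          rw [h]
      rw [map_mul, (PowerSeries.derivative ℝ).leibniz, (W2 l c).leibniz, map_add, smul_eq_mul,
        smul_eq_mul, smul_eq_mul, smul_eq_mul, map_mul, map_mul, hp, hi]
      ring
  obtain ⟨C, hC1, hC2⟩ := twisted (PowerSeries.derivative ℝ) (W2 l c) ψ s hψd (y ^ M * z ^ N)
  refine ⟨fun i j => PowerSeries.constantCoeff (C i j), fun i => ?_, fun i a k ha hk => ?_⟩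
  · change PowerSeries.constantCoeff (C i i) = _
    have hcl : ∀ x : ℝ, PowerSeries.constantCoeff (algebraMap ℝ (PowerSeries ℝ) x) = x :=
      fun x => PowerSeries.constantCoeff_C x
    rw [hC1, hs]
    simp only [map_mul, map_pow, map_sub, cx, cy, cz, hcl]
  · rw [eval_iterate, ← hφ]
    have h3 : φ (X 0 ^ a * X 1 ^ (M - a) * (X 2 ^ (N - k) * X 3 ^ k)) =
        (y ^ M * z ^ N) * ψ (X 0 ^ a * X 1 ^ k) := by
      rw [map_mul, map_mul, map_mul, map_pow, map_pow, map_pow, map_pow, ← hx, ← hy, ← hz, ← ht,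
        map_mul, map_pow, map_pow, hψ0, hψ1, hu, hr, mul_pow, mul_pow]
      obtain ⟨m, rfl⟩ := Nat.exists_eq_add_of_le ha
      obtain ⟨n, rfl⟩ := Nat.exists_eq_add_of_le hk
      rw [Nat.add_sub_cancel_left, Nat.add_sub_cancel_left, pow_add, pow_add]
      have e1 : y ^ a * y⁻¹ ^ a = 1 := by rw [← mul_pow, iy, one_pow]
      have e2 : z ^ k * z⁻¹ ^ k = 1 := by rw [← mul_pow, iz, one_pow]
      linear_combination (-(x ^ a * y ^ m * (z ^ n * t ^ k))) * e1 -
        (x ^ a * y ^ m * (z ^ n * t ^ k)) * (y ^ a * y⁻¹ ^ a) * e2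
    rw [h3, hC2, map_sum]
    refine Finset.sum_congr rfl fun j _ => ?_
    rw [map_mul]
    congr 1
    generalize (fun x => W2 l c x)^[j] (X 0 ^ a * X 1 ^ k) = f
    have hcu : PowerSeries.constantCoeff u = d₁ / d₂ := by
      rw [hu, map_mul, PowerSeries.constantCoeff_inv, cx, cy, div_eq_mul_inv]
    have hcr : PowerSeries.constantCoeff r = υ / ξ := by
      rw [hr, map_mul, PowerSeries.constantCoeff_inv, ct, cz, div_eq_mul_inv]
    induction f using MvPolynomial.induction_on with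
    | C a =>
      rw [← algebraMap_eq, AlgHom.commutes, AlgHom.commutes]
      exact PowerSeries.constantCoeff_C a
    | add p q hp hq => rw [map_add, map_add, map_add, hp, hq]
    | mul_X p i hp =>
      rw [map_mul, map_mul, map_mul, hp]
      congr 1
      fin_cases i
      · change PowerSeries.constantCoeff (ψ (X 0)) = aeval ![d₁ / d₂, υ / ξ] (X 0)
        rw [hψ0, hcu, aeval_X]
        rfl
      · change PowerSeries.constantCoeff (ψ (X 1)) = aeval ![d₁ / d₂, υ / ξ] (X 1)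
        rw [hψ1, hcr, aeval_X]
        rfl

end Pool.Agent.Work.MP_f2148a_nt.M56.G4
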