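import Pool.Agent.Work.MP_f2148a_nt.M56.G4.Bound

set_option autoImplicit false

/-!
# MP_f2148a_nt, block G4: the entries of the rows `W^i` (main statements, all proved)
-/

namespace Pool.Agent.Work.MP_f2148a_nt.M56.G4

open MvPolynomial

/-- The linear functional of a row. -/
noncomputable def Phi (l c : ℝ) (P : Fin 3 → ℝ) (M i : ℕ) :
    MvPolynomial (Fin 2) ℝ →ₗ[ℝ] ℝ :=
  (aeval P : MvPolynomial (Fin 3) ℝ →ₐ[ℝ] ℝ).toLinearMap ∘ₗ
    ((W3 l c : MvPolynomial (Fin 3) ℝ →ₗ[ℝ] MvPolynomial (Fin 3) ℝ) ^ i) ∘ₗ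
    LinearMap.mulLeft ℝ (X 2 ^ M) ∘ₗ
    (aeval ![X 1, X 0] : MvPolynomial (Fin 2) ℝ →ₐ[ℝ] MvPolynomial (Fin 3) ℝ).toLinearMap

theorem Phi_apply (l c : ℝ) (P : Fin 3 → ℝ) (M i : ℕ) (f : MvPolynomial (Fin 2) ℝ) :
    Phi l c P M i f = aeval P ((fun x => W3 l c x)^[i] (X 2 ^ M *
      aeval ![(X 1 : MvPolynomial (Fin 3) ℝ), X 0] f)) := by
  unfold Phi
  simp only [LinearMap.comp_apply, AlgHom.toLinearMap_apply, LinearMap.mulLeft_apply,
    Module.End.pow_apply]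
  rfl

private theorem cc_aeval {q : Fin 3 → PowerSeries ℝ} (f : MvPolynomial (Fin 3) ℝ) :
    PowerSeries.constantCoeff (aeval q f) =
      aeval (fun i => PowerSeries.constantCoeff (q i)) f := by
  induction f using MvPolynomial.induction_on with
  | C a =>
    rw [aeval_C, aeval_C]
    exact PowerSeries.constantCoeff_C a
  | add p q hp hq => rw [map_add, map_add, map_add, hp, hq]
  | mul_X p i hp => rw [map_mul, map_mul, map_mul, aeval_X, aeval_X, hp]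

/-- Entries of the rows in terms of the functional. -/
theorem entry_eq (l c u r : ℝ) (h0 : pa l c r ≠ 0) (M i a k : ℕ) (ha : a ≤ M) :
    aeval ![u, r] ((fun x => W2 l c x)^[i] (X 0 ^ a * X 1 ^ k)) =
      Phi l c ![r, u * pa l c r + pb l c r, (pa l c r)⁻¹] M i
        ((X 0 - pb (algebraMap ℝ _ l) (algebraMap ℝ _ c) (X 1)) ^ a *
          pa (algebraMap ℝ _ l) (algebraMap ℝ _ c) (X 1) ^ (M - a) * X 1 ^ k) := by
  set e : MvPolynomial (Fin 2) ℝ →ₐ[ℝ] ℝ := aeval ![u, r] with he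
  have he0 : e (X 0) = u := by
    rw [he, aeval_X]
    rfl
  have he1 : e (X 1) = r := by
    rw [he, aeval_X]
    rfl
  set ψ := flow (W2 l c) e with hψ
  set U := ψ (X 0) with hU
  set R := ψ (X 1) with hR
  have hmap : ∀ x, ψ (pa (algebraMap ℝ _ l) (algebraMap ℝ _ c) x) =
      pa (algebraMap ℝ _ l) (algebraMap ℝ _ c) (ψ x) := by
    intro x
    have h := map_pa (ψ : MvPolynomial (Fin 2) ℝ →+* PowerSeries ℝ) (algebraMap ℝ _ l)
      (algebraMap ℝ _ c) x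
    simpa only [RingHom.coe_coe, AlgHom.commutes] using h
  have hcR : PowerSeries.constantCoeff R = r := by rw [hR, hψ, constantCoeff_flow, he1]
  have hcU : PowerSeries.constantCoeff U = u := by rw [hU, hψ, constantCoeff_flow, he0]
  have hcl : ∀ x : ℝ, PowerSeries.constantCoeff (algebraMap ℝ (PowerSeries ℝ) x) = x :=
    fun x => PowerSeries.constantCoeff_C x
  have hcpa : PowerSeries.constantCoeff (pa (algebraMap ℝ _ l) (algebraMap ℝ _ c) R) =
      pa l c r := by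
    rw [map_pa, hcl, hcl, hcR]
  have hcpb : PowerSeries.constantCoeff (pb (algebraMap ℝ _ l) (algebraMap ℝ _ c) R) =
      pb l c r := by
    rw [map_pb, hcl, hcl, hcR]
  set q := (pa (algebraMap ℝ (PowerSeries ℝ) l) (algebraMap ℝ _ c) R)⁻¹ with hq
  have hpq : pa (algebraMap ℝ (PowerSeries ℝ) l) (algebraMap ℝ _ c) R * q = 1 := by
    rw [hq]
    exact PowerSeries.mul_inv_cancel _ (by rw [hcpa]; exact h0)
  have hcq : PowerSeries.constantCoeff q = (pa l c r)⁻¹ := by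
    rw [hq, PowerSeries.constantCoeff_inv, hcpa]
  have hdU : PowerSeries.derivative ℝ U =
      -jf (algebraMap ℝ _ l) (algebraMap ℝ _ c) U := by
    rw [hU, hψ, derivative_flow, W2_zero, map_neg]
    have h := map_jf (ψ : MvPolynomial (Fin 2) ℝ →+* PowerSeries ℝ) (algebraMap ℝ _ l)
      (algebraMap ℝ _ c) (X 0)
    simp only [RingHom.coe_coe, AlgHom.commutes] at h
    rw [← hψ, h]
  have hdR : PowerSeries.derivative ℝ R =
      algebraMap ℝ _ (1 / 2) * hf (algebraMap ℝ _ l) (algebraMap ℝ _ c) U R := by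
    rw [hR, hψ, derivative_flow, W2_one, map_mul, AlgHom.commutes]
    have h := map_hf (ψ : MvPolynomial (Fin 2) ℝ →+* PowerSeries ℝ) (algebraMap ℝ _ l)
      (algebraMap ℝ _ c) (X 0) (X 1)
    simp only [RingHom.coe_coe, AlgHom.commutes] at h
    rw [← hψ, h]
  have hcomm : ∀ i : Fin 3, PowerSeries.derivative ℝ (chi l c U R q (X i)) =
      chi l c U R q (W3 l c (X i)) := fun i =>
    chi_comm (PowerSeries.derivative ℝ) hpq hdU hdR (X i)
  rw [eval_iterate, ← hψ]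
  set F : MvPolynomial (Fin 2) ℝ := (X 0 - pb (algebraMap ℝ _ l) (algebraMap ℝ _ c) (X 1)) ^ a *
          pa (algebraMap ℝ _ l) (algebraMap ℝ _ c) (X 1) ^ (M - a) * X 1 ^ k with hF
  have hψF : ψ (X 0 ^ a * X 1 ^ k) =
      chi l c U R q (X 2 ^ M * aeval ![(X 1 : MvPolynomial (Fin 3) ℝ), X 0] F) := by
    have t0 : aeval ![(X 1 : MvPolynomial (Fin 3) ℝ), X 0] (X 0 : MvPolynomial (Fin 2) ℝ) =
        X 1 := by
      rw [aeval_X]
      rfl
    have t1 : aeval ![(X 1 : MvPolynomial (Fin 3) ℝ), X 0] (X 1 : MvPolynomial (Fin 2) ℝ) =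
        X 0 := by
      rw [aeval_X]
      rfl
    have t2 : aeval ![(X 1 : MvPolynomial (Fin 3) ℝ), X 0]
        (pb (algebraMap ℝ (MvPolynomial (Fin 2) ℝ) l) (algebraMap ℝ _ c) (X 1)) =
        pb (algebraMap ℝ _ l) (algebraMap ℝ _ c) (X 0) := by
      have h := map_pb ((aeval ![(X 1 : MvPolynomial (Fin 3) ℝ), X 0] :
        MvPolynomial (Fin 2) ℝ →ₐ[ℝ] MvPolynomial (Fin 3) ℝ) :
        MvPolynomial (Fin 2) ℝ →+* MvPolynomial (Fin 3) ℝ) (algebraMap ℝ _ l)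
        (algebraMap ℝ _ c) (X 1)
      simp only [RingHom.coe_coe, AlgHom.commutes, t1] at h
      exact h
    have t3 : aeval ![(X 1 : MvPolynomial (Fin 3) ℝ), X 0]
        (pa (algebraMap ℝ (MvPolynomial (Fin 2) ℝ) l) (algebraMap ℝ _ c) (X 1)) =
        pa (algebraMap ℝ _ l) (algebraMap ℝ _ c) (X 0) := by
      have h := map_pa ((aeval ![(X 1 : MvPolynomial (Fin 3) ℝ), X 0] :
        MvPolynomial (Fin 2) ℝ →ₐ[ℝ] MvPolynomial (Fin 3) ℝ) :
        MvPolynomial (Fin 2) ℝ →+* MvPolynomial (Fin 3) ℝ) (algebraMap ℝ _ l)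
        (algebraMap ℝ _ c) (X 1)
      simp only [RingHom.coe_coe, AlgHom.commutes, t1] at h
      exact h
    have s2 : chi l c U R q (pb (algebraMap ℝ _ l) (algebraMap ℝ _ c) (X 0)) =
        pb (algebraMap ℝ _ l) (algebraMap ℝ _ c) R := by
      have h := map_pb (chi l c U R q : MvPolynomial (Fin 3) ℝ →+* PowerSeries ℝ)
        (algebraMap ℝ _ l) (algebraMap ℝ _ c) (X 0)
      simp only [RingHom.coe_coe, AlgHom.commutes, chi_zero] at h
      exact h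
    have s3 : chi l c U R q (pa (algebraMap ℝ _ l) (algebraMap ℝ _ c) (X 0)) =
        pa (algebraMap ℝ _ l) (algebraMap ℝ _ c) R := by
      have h := map_pa (chi l c U R q : MvPolynomial (Fin 3) ℝ →+* PowerSeries ℝ)
        (algebraMap ℝ _ l) (algebraMap ℝ _ c) (X 0)
      simp only [RingHom.coe_coe, AlgHom.commutes, chi_zero] at h
      exact h
    rw [hF, map_mul, map_pow, map_pow, ← hU, ← hR]
    simp only [map_mul, map_pow, map_sub, t0, t1, t2, t3, s2, s3, chi_zero, chi_one, chi_two]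
    rw [add_sub_cancel_right]
    obtain ⟨m, rfl⟩ := Nat.exists_eq_add_of_le ha
    rw [Nat.add_sub_cancel_left, pow_add, mul_pow]
    have e1 : pa (algebraMap ℝ (PowerSeries ℝ) l) (algebraMap ℝ _ c) R ^ a * q ^ a = 1 := by
      rw [← mul_pow, hpq, one_pow]
    have e2 : pa (algebraMap ℝ (PowerSeries ℝ) l) (algebraMap ℝ _ c) R ^ m * q ^ m = 1 := by
      rw [← mul_pow, hpq, one_pow]
    linear_combination (-(U ^ a * R ^ k)) * e1 -
      (U ^ a * R ^ k) * (pa (algebraMap ℝ (PowerSeries ℝ) l) (algebraMap ℝ _ c) R ^ a * q ^ a) * e2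
  rw [hψF, comm_iterate (W3 l c) (PowerSeries.derivative ℝ) (chi l c U R q) hcomm, Phi_apply, chi,
    cc_aeval]
  congr 1
  refine congrArg _ (funext fun i => ?_)
  fin_cases i
  · exact hcR
  · change PowerSeries.constantCoeff (U * _ + _) = _
    rw [map_add, map_mul, hcU, hcpa, hcpb]
    rfl
  · exact hcq

/-- Bounds for the functional. -/
theorem Phi_bound {l c ρ g : ℝ} (hl : |l| ≤ 1) (hc : |c| ≤ 1) (hρ : 0 < ρ) (hρ1 : ρ ≤ 1 / 5)
    (hg : 0 ≤ g) (hg1 : g ≤ 1) {P : Fin 3 → ℝ} (hP : ∀ i, |P i| ≤ w3 ρ g i) (M i j b : ℕ) :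
    |Phi l c P M i (X 0 ^ j * X 1 ^ b)| ≤
      2 ^ M * g ^ j * ρ ^ b * (cost c ρ g * (M + j + b + 11 * i : ℕ)) ^ i := by
  have hw := w3_nonneg hρ hg
  have t0 : aeval ![(X 1 : MvPolynomial (Fin 3) ℝ), X 0] (X 0 : MvPolynomial (Fin 2) ℝ) =
      X 1 := by
    rw [aeval_X]
    rfl
  have t1 : aeval ![(X 1 : MvPolynomial (Fin 3) ℝ), X 0] (X 1 : MvPolynomial (Fin 2) ℝ) =
      X 0 := by
    rw [aeval_X]
    rfl
  rw [Phi_apply, map_mul, map_pow, map_pow, t0, t1]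
  have h1 : (X 2 ^ M * (X 1 ^ j * X 0 ^ b) : MvPolynomial (Fin 3) ℝ).totalDegree ≤ M + j + b := by
    refine td_mul (a := M) (b := j + b) (td_pow (a := 1) M (td_X _ le_rfl) (by omega))
      (td_mul (a := j) (b := b) (td_pow (a := 1) j (td_X _ le_rfl) (by omega))
        (td_pow (a := 1) b (td_X _ le_rfl) (by omega)) le_rfl) (by omega)
  have hcost : 0 ≤ cost c ρ g := by linarith [cost_ge (c := c) hρ hg]
  have h2 := iter_bound hw hcost (W3 l c) (wn_W3 hl hc hρ hρ1 hg hg1) (td_W3 l c) i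
    (X 2 ^ M * (X 1 ^ j * X 0 ^ b)) h1
  have h3 : wn (w3 ρ g) (X 2 ^ M * (X 1 ^ j * X 0 ^ b) : MvPolynomial (Fin 3) ℝ) ≤
      2 ^ M * (g ^ j * ρ ^ b) :=
    bd_mul hw (bd_pow hw (bd_X rfl) M) (bd_mul hw (bd_pow hw (bd_X rfl) j)
      (bd_pow hw (bd_X rfl) b))
  have h4 : ∀ f : MvPolynomial (Fin 3) ℝ, |aeval P f| ≤ wn (w3 ρ g) f := by
    intro f
    rw [aeval_eq_eval]
    exact abs_eval_le hP f
  refine (h4 _).trans (h2.trans ?_)
  refine (mul_le_mul_of_nonneg_left h3 (by positivity)).trans (le_of_eq ?_)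
  push_cast
  ring

/-- Entries and bounds at a point of the plane. -/
theorem entry {l c ρ g u r : ℝ} (hl : |l| ≤ 1) (hc : |c| ≤ 1) (hρ : 0 < ρ) (hρ1 : ρ ≤ 1 / 5)
    (hg : 0 ≤ g) (hg1 : g ≤ 1) (hr : |r| ≤ ρ) (hu : |u * pa l c r + pb l c r| ≤ g) (M i : ℕ) :
    ∃ Φ : MvPolynomial (Fin 2) ℝ →ₗ[ℝ] ℝ,
      (∀ a k : ℕ, a ≤ M → aeval ![u, r] ((fun x => W2 l c x)^[i] (X 0 ^ a * X 1 ^ k)) =
        Φ ((X 0 - pb (algebraMap ℝ _ l) (algebraMap ℝ _ c) (X 1)) ^ a *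
          pa (algebraMap ℝ _ l) (algebraMap ℝ _ c) (X 1) ^ (M - a) * X 1 ^ k)) ∧
      ∀ j b : ℕ, |Φ (X 0 ^ j * X 1 ^ b)| ≤
        2 ^ M * g ^ j * ρ ^ b * (cost c ρ g * (M + j + b + 11 * i : ℕ)) ^ i := by
  have hr2 : r ^ 2 ≤ 1 / 25 := by
    have := abs_le.1 (hr.trans hρ1)
    nlinarith
  have hr3 : |r ^ 3| ≤ 1 / 125 := by
    rw [abs_pow]
    calc |r| ^ 3 ≤ (1 / 5) ^ 3 := pow_le_pow_left₀ (abs_nonneg _) (hr.trans hρ1) 3
      _ = 1 / 125 := by norm_num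
  have hr4 : |r ^ 4| ≤ 1 / 625 := by
    rw [abs_pow]
    calc |r| ^ 4 ≤ (1 / 5) ^ 4 := pow_le_pow_left₀ (abs_nonneg _) (hr.trans hρ1) 4
      _ = 1 / 625 := by norm_num
  have hpa : 1 / 2 ≤ pa l c r := by
    unfold pa
    have e1 : l * r ^ 2 ≤ 1 / 25 := by
      calc l * r ^ 2 ≤ |l| * r ^ 2 := mul_le_mul_of_nonneg_right (le_abs_self l) (sq_nonneg r)
        _ ≤ 1 * (1 / 25) := mul_le_mul hl hr2 (sq_nonneg r) (by norm_num)
        _ = _ := by norm_num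
    have e2 : c * r ^ 3 ≤ 1 / 125 := by
      calc c * r ^ 3 ≤ |c * r ^ 3| := le_abs_self _
        _ = |c| * |r ^ 3| := abs_mul _ _
        _ ≤ 1 * (1 / 125) := mul_le_mul hc hr3 (abs_nonneg _) (by norm_num)
        _ = _ := by norm_num
    have e3 : l ^ 2 * r ^ 4 ≤ 1 / 625 := by
      calc l ^ 2 * r ^ 4 ≤ |l ^ 2 * r ^ 4| := le_abs_self _
        _ = |l| ^ 2 * |r ^ 4| := by rw [abs_mul, abs_pow]
        _ ≤ 1 ^ 2 * (1 / 625) := mul_le_mul (pow_le_pow_left₀ (abs_nonneg _) hl 2) hr4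
            (abs_nonneg _) (by norm_num)
        _ = _ := by norm_num
    linarith
  have hpa0 : pa l c r ≠ 0 := by linarith
  refine ⟨Phi l c ![r, u * pa l c r + pb l c r, (pa l c r)⁻¹] M i,
    fun a k ha => entry_eq l c u r hpa0 M i a k ha, fun j b =>
    Phi_bound hl hc hρ hρ1 hg hg1 (fun t => ?_) M i j b⟩
  fin_cases t
  · exact hr
  · exact hu
  · change |(pa l c r)⁻¹| ≤ 2
    rw [abs_of_pos (by positivity)]
    calc (pa l c r)⁻¹ ≤ (1 / 2)⁻¹ := inv_anti₀ (by norm_num) hpa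
      _ = 2 := by norm_num

end Pool.Agent.Work.MP_f2148a_nt.M56.G4
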