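import Pool.Agent.Work.MP_f2148a_nt.M56.G4.Entry

set_option autoImplicit false

/-!
# MP_f2148a_nt, block G4: bounds for `W3` (all proved)
-/

namespace Pool.Agent.Work.MP_f2148a_nt.M56.G4

open MvPolynomial

section comb

variable {σ : Type*} {w : σ → ℝ}

theorem wn_neg (p : MvPolynomial σ ℝ) : wn w (-p) = wn w p := by
  have h := wn_smul (w := w) (-1) p
  rw [neg_one_smul, abs_neg, abs_one, one_mul] at h
  exact h

theorem wn_ofNat (n : ℕ) [n.AtLeastTwo] :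
    wn w (OfNat.ofNat n : MvPolynomial σ ℝ) = (OfNat.ofNat n : ℝ) := by
  have h := wn_C w (OfNat.ofNat n : ℝ)
  rwa [map_ofNat, Nat.abs_ofNat] at h

theorem bd_am (c : ℝ) {a : ℝ} (h : |c| ≤ a) :
    wn w (algebraMap ℝ (MvPolynomial σ ℝ) c) ≤ a := by
  rw [algebraMap_eq, wn_C]
  exact h

theorem bd_X {i : σ} {a : ℝ} (h : w i = a) : wn w (X i : MvPolynomial σ ℝ) ≤ a := by
  rw [wn_X, h]

variable {p q : MvPolynomial σ ℝ} {a b : ℝ} (hw : ∀ i, 0 ≤ w i)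
include hw

theorem bd_add (hp : wn w p ≤ a) (hq : wn w q ≤ b) : wn w (p + q) ≤ a + b :=
  (wn_add hw p q).trans (add_le_add hp hq)

theorem bd_sub (hp : wn w p ≤ a) (hq : wn w q ≤ b) : wn w (p - q) ≤ a + b := by
  rw [sub_eq_add_neg]
  exact bd_add hw hp (by rw [wn_neg]; exact hq)

theorem bd_mul (hp : wn w p ≤ a) (hq : wn w q ≤ b) : wn w (p * q) ≤ a * b :=
  (wn_mul hw p q).trans (mul_le_mul hp hq (wn_nonneg hw q) ((wn_nonneg hw p).trans hp))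

theorem bd_pow (hp : wn w p ≤ a) (n : ℕ) : wn w (p ^ n) ≤ a ^ n :=
  (wn_pow hw p n).trans (pow_le_pow_left₀ (wn_nonneg hw p) hp n)

end comb

section deg

variable {σ : Type*} {p q : MvPolynomial σ ℝ} {a b n : ℕ}

theorem td_am (c : ℝ) : (algebraMap ℝ (MvPolynomial σ ℝ) c).totalDegree ≤ n := by
  rw [algebraMap_eq, totalDegree_C]
  exact Nat.zero_le _

theorem td_num (k : ℕ) [k.AtLeastTwo] :
    (OfNat.ofNat k : MvPolynomial σ ℝ).totalDegree ≤ n := by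
  have h := totalDegree_C (σ := σ) (OfNat.ofNat k : ℝ)
  rw [map_ofNat] at h
  rw [h]
  exact Nat.zero_le _

theorem td_X (i : σ) (hn : 1 ≤ n) : (X i : MvPolynomial σ ℝ).totalDegree ≤ n := by
  rw [totalDegree_X]
  exact hn

theorem td_add (hp : p.totalDegree ≤ n) (hq : q.totalDegree ≤ n) : (p + q).totalDegree ≤ n :=
  (totalDegree_add _ _).trans (max_le hp hq)

theorem td_neg (hp : p.totalDegree ≤ n) : (-p).totalDegree ≤ n := by
  rwa [totalDegree_neg]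

theorem td_sub (hp : p.totalDegree ≤ n) (hq : q.totalDegree ≤ n) : (p - q).totalDegree ≤ n := by
  rw [sub_eq_add_neg]
  exact td_add hp (td_neg hq)

theorem td_mul (hp : p.totalDegree ≤ a) (hq : q.totalDegree ≤ b) (h : a + b ≤ n) :
    (p * q).totalDegree ≤ n :=
  (totalDegree_mul _ _).trans (by omega)

theorem td_pow (k : ℕ) (hp : p.totalDegree ≤ a) (h : k * a ≤ n) : (p ^ k).totalDegree ≤ n :=
  (totalDegree_pow _ _).trans ((Nat.mul_le_mul_left k hp).trans h)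

end deg

theorem td_u3 (l c : ℝ) : (u3 l c).totalDegree ≤ 5 := by
  unfold u3 pb
  refine td_mul (a := 4) (b := 1) (td_sub (td_X _ (by norm_num)) ?_) (td_X _ le_rfl) (by norm_num)
  refine td_add (td_sub ?_ ?_) ?_
  · exact td_mul (a := 0) (b := 1) (td_num 2) (td_X _ le_rfl) (by norm_num)
  · exact td_mul (a := 0) (b := 4) (td_am _) (td_pow (a := 1) 4 (td_X _ le_rfl) (by norm_num))
      (by norm_num)
  · rw [zero_mul, totalDegree_zero]
    exact Nat.zero_le _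

theorem td_r3 (l c : ℝ) : (r3 l c).totalDegree ≤ 7 := by
  have hu := td_u3 l c
  unfold r3 hf
  refine td_mul (a := 0) (b := 7) (td_am _) ?_ (by norm_num)
  refine td_add (td_add ?_ ?_) ?_
  · refine td_add (td_am _) (td_mul (a := 0) (b := 5) ?_ hu (by norm_num))
    exact td_mul (a := 0) (b := 0) (td_num 4) (td_pow (a := 0) 2 (td_am _) (by norm_num)) le_rfl
  · refine td_mul (a := 5) (b := 1) (td_sub ?_ ?_) (td_X _ le_rfl) (by norm_num)
    · exact td_mul (a := 0) (b := 0) (td_num 2) (td_pow (a := 0) 2 (td_am _) (by norm_num))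
        (by norm_num)
    · refine td_mul (a := 0) (b := 5) ?_ hu (by norm_num)
      exact td_mul (a := 0) (b := 0) (td_mul (a := 0) (b := 0) (td_num 2) (td_am _) le_rfl)
        (td_am _) le_rfl
  · refine td_mul (a := 5) (b := 2) (td_sub (td_add ?_ ?_) ?_)
      (td_pow (a := 1) 2 (td_X _ le_rfl) (by norm_num)) (by norm_num)
    · refine td_mul (a := 0) (b := 5) ?_ hu (by norm_num)
      exact td_mul (a := 0) (b := 0) (td_num 4) (td_pow (a := 0) 3 (td_am _) (by norm_num)) le_rfl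
    · exact td_mul (a := 0) (b := 0) (td_mul (a := 0) (b := 0) (td_num 2) (td_am _) le_rfl)
        (td_am _) (by norm_num)
    · exact td_mul (a := 0) (b := 5) (td_pow (a := 0) 2 (td_am _) (by norm_num)) hu (by norm_num)

theorem td_b3 (l c : ℝ) :
    (bf (algebraMap ℝ (MvPolynomial (Fin 3) ℝ) l) (algebraMap ℝ _ c) (u3 l c)
      (X 0)).totalDegree ≤ 10 := by
  have hu := td_u3 l c
  unfold bf
  refine td_add (td_add (td_add ?_ ?_) ?_) ?_
  · refine td_mul (a := 0) (b := 10) (td_neg (td_sub ?_ ?_)) (td_pow (a := 5) 2 hu (by norm_num))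
      (by norm_num)
    · exact td_mul (a := 0) (b := 0) (td_num 16) (td_pow (a := 0) 3 (td_am _) (by norm_num)) le_rfl
    · exact td_pow (a := 0) 2 (td_am _) (by norm_num)
  · refine td_mul (a := 1) (b := 5) (td_add ?_ ?_) hu (by norm_num)
    · refine td_mul (a := 0) (b := 0) (td_mul (a := 0) (b := 0) ?_ (td_am _) le_rfl) (td_am _)
        (by norm_num)
      exact td_neg (td_num 6)
    · refine td_mul (a := 0) (b := 1) (td_sub ?_ ?_) (td_X _ le_rfl) (by norm_num)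
      · exact td_mul (a := 0) (b := 0) (td_num 8) (td_pow (a := 0) 3 (td_am _) (by norm_num))
          le_rfl
      · exact td_mul (a := 0) (b := 0) (td_num 2) (td_pow (a := 0) 2 (td_am _) (by norm_num))
          le_rfl
  · exact td_pow (a := 0) 2 (td_am _) (by norm_num)
  · exact td_mul (a := 0) (b := 1) (td_mul (a := 0) (b := 0) (td_mul (a := 0) (b := 0) (td_num 4)
      (td_am _) le_rfl) (td_am _) le_rfl) (td_X _ le_rfl) (by norm_num)

theorem td_pa' (l c : ℝ) :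
    (pa' (algebraMap ℝ (MvPolynomial (Fin 3) ℝ) l) (algebraMap ℝ _ c) (X 0)).totalDegree ≤ 3 := by
  unfold pa'
  refine td_sub (td_sub ?_ ?_) ?_
  · exact td_mul (a := 0) (b := 1) (td_mul (a := 0) (b := 0) (td_neg (td_num 12)) (td_am _) le_rfl)
      (td_X _ le_rfl) (by norm_num)
  · exact td_mul (a := 0) (b := 2) (td_mul (a := 0) (b := 0) (td_num 6) (td_am _) le_rfl)
      (td_pow (a := 1) 2 (td_X _ le_rfl) (by norm_num)) (by norm_num)
  · exact td_mul (a := 0) (b := 3) (td_mul (a := 0) (b := 0) (td_num 12)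
      (td_pow (a := 0) 2 (td_am _) (by norm_num)) le_rfl)
      (td_pow (a := 1) 3 (td_X _ le_rfl) (by norm_num)) (by norm_num)

theorem td_W3 (l c : ℝ) (i : Fin 3) : (W3 l c (X i)).totalDegree ≤ 11 + 1 := by
  fin_cases i
  · change (W3 l c (X 0)).totalDegree ≤ 12
    rw [W3_zero]
    exact (td_r3 l c).trans (by norm_num)
  · change (W3 l c (X 1)).totalDegree ≤ 12
    rw [W3_one]
    exact td_mul (a := 1) (b := 10) (td_X _ le_rfl) (td_b3 l c) (by norm_num)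
  · change (W3 l c (X 2)).totalDegree ≤ 12
    rw [W3_two]
    exact td_neg (td_mul (a := 2) (b := 10) (td_pow (a := 1) 2 (td_X _ le_rfl) (by norm_num))
      (td_mul (a := 3) (b := 7) (td_pa' l c) (td_r3 l c) le_rfl) le_rfl)

section bounds

variable {l c ρ g : ℝ} (hl : |l| ≤ 1) (hc : |c| ≤ 1) (hρ : 0 < ρ) (hρ1 : ρ ≤ 1 / 5)
  (hg : 0 ≤ g) (hg1 : g ≤ 1)

/-- The weights of `r, γ, π`. -/
noncomputable def w3 (ρ g : ℝ) : Fin 3 → ℝ := ![ρ, g, 2]

include hρ hg in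
theorem w3_nonneg (i : Fin 3) : 0 ≤ w3 ρ g i := by
  fin_cases i
  · exact hρ.le
  · exact hg
  · exact zero_le_two

include hc hρ hρ1 hg in
theorem wn_u3 : wn (w3 ρ g) (u3 l c) ≤ 2 * g + 6 * ρ := by
  have hw := w3_nonneg hρ hg
  have h0 : wn (w3 ρ g) (X 0 : MvPolynomial (Fin 3) ℝ) ≤ ρ := bd_X rfl
  have h1 : wn (w3 ρ g) (X 1 : MvPolynomial (Fin 3) ℝ) ≤ g := bd_X rfl
  have h2 : wn (w3 ρ g) (X 2 : MvPolynomial (Fin 3) ℝ) ≤ 2 := bd_X rfl
  have h3 : wn (w3 ρ g) (u3 l c) ≤ (g + (2 * ρ + 1 * ρ ^ 4 + 0)) * 2 := by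
    unfold u3 pb
    refine bd_mul hw (bd_sub hw h1 (bd_add hw (bd_sub hw ?_ ?_) ?_)) h2
    · exact bd_mul hw (wn_ofNat 2).le h0
    · exact bd_mul hw (bd_am c hc) (bd_pow hw h0 4)
    · rw [zero_mul, wn_zero]
  refine h3.trans ?_
  have h4 : ρ ^ 4 ≤ ρ := by
    calc ρ ^ 4 ≤ ρ ^ 1 := pow_le_pow_of_le_one hρ.le (by linarith) (by norm_num)
      _ = ρ := pow_one ρ
  linarith

include hl hc hρ hρ1 hg hg1 in
theorem wn_r3 : wn (w3 ρ g) (r3 l c) ≤ 20 * (|c| + g + ρ) := by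
  have hw := w3_nonneg hρ hg
  have h0 : wn (w3 ρ g) (X 0 : MvPolynomial (Fin 3) ℝ) ≤ ρ := bd_X rfl
  have hu := wn_u3 (l := l) hc hρ hρ1 hg
  set U := 2 * g + 6 * ρ with hU
  have hL : wn (w3 ρ g) (algebraMap ℝ (MvPolynomial (Fin 3) ℝ) l) ≤ 1 := bd_am l hl
  have hC : wn (w3 ρ g) (algebraMap ℝ (MvPolynomial (Fin 3) ℝ) c) ≤ 1 := bd_am c hc
  have h3 : wn (w3 ρ g) (r3 l c) ≤ 1 / 2 * ((|c| + 4 * 1 ^ 2 * U) + (2 * 1 ^ 2 + 2 * 1 * 1 * U) * ρ
      + (4 * 1 ^ 3 * U + 2 * 1 * 1 + 1 ^ 2 * U) * ρ ^ 2) := by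
    unfold r3 hf
    refine bd_mul hw (bd_am _ (by norm_num)) (bd_add hw (bd_add hw (bd_add hw (bd_am c le_rfl)
      ?_) ?_) ?_)
    · exact bd_mul hw (bd_mul hw (wn_ofNat 4).le (bd_pow hw hL 2)) hu
    · exact bd_mul hw (bd_sub hw (bd_mul hw (wn_ofNat 2).le (bd_pow hw hL 2))
        (bd_mul hw (bd_mul hw (bd_mul hw (wn_ofNat 2).le hL) hC) hu)) h0
    · exact bd_mul hw (bd_sub hw (bd_add hw (bd_mul hw (bd_mul hw (wn_ofNat 4).le
        (bd_pow hw hL 3)) hu) (bd_mul hw (bd_mul hw (wn_ofNat 2).le hL) hC))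
        (bd_mul hw (bd_pow hw hC 2) hu)) (bd_pow hw h0 2)
  refine h3.trans ?_
  have h4 : U ≤ 4 := by rw [hU]; linarith
  have hU0 : 0 ≤ U := by rw [hU]; linarith
  have h5 : U * ρ ≤ 4 * ρ := mul_le_mul_of_nonneg_right h4 hρ.le
  have h6 : ρ ^ 2 ≤ 1 / 5 * ρ := by nlinarith
  have h7 : U * ρ ^ 2 ≤ 4 * ρ ^ 2 := mul_le_mul_of_nonneg_right h4 (by positivity)
  have h8 := abs_nonneg c
  nlinarith

include hl hc hρ hρ1 hg hg1 in
theorem wn_b3 : wn (w3 ρ g) (bf (algebraMap ℝ (MvPolynomial (Fin 3) ℝ) l) (algebraMap ℝ _ c)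
    (u3 l c) (X 0)) ≤ 306 := by
  have hw := w3_nonneg hρ hg
  have h0 : wn (w3 ρ g) (X 0 : MvPolynomial (Fin 3) ℝ) ≤ 1 / 5 := (bd_X rfl).trans hρ1
  have hu : wn (w3 ρ g) (u3 l c) ≤ 4 := (wn_u3 (l := l) hc hρ hρ1 hg).trans (by linarith)
  have hL : wn (w3 ρ g) (algebraMap ℝ (MvPolynomial (Fin 3) ℝ) l) ≤ 1 := bd_am l hl
  have hC : wn (w3 ρ g) (algebraMap ℝ (MvPolynomial (Fin 3) ℝ) c) ≤ 1 := bd_am c hc
  have h3 : wn (w3 ρ g) (bf (algebraMap ℝ (MvPolynomial (Fin 3) ℝ) l) (algebraMap ℝ _ c)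
      (u3 l c) (X 0)) ≤ (16 * 1 ^ 3 + 1 ^ 2) * 4 ^ 2 + (6 * 1 * 1 +
        (8 * 1 ^ 3 + 2 * 1 ^ 2) * (1 / 5)) * 4 + 1 ^ 2 + 4 * 1 * 1 * (1 / 5) := by
    unfold bf
    refine bd_add hw (bd_add hw (bd_add hw (bd_mul hw ?_ (bd_pow hw hu 2)) (bd_mul hw
      (bd_add hw ?_ (bd_mul hw ?_ h0)) hu)) (bd_pow hw hL 2)) ?_
    · rw [wn_neg]
      exact bd_sub hw (bd_mul hw (wn_ofNat 16).le (bd_pow hw hL 3)) (bd_pow hw hC 2)
    · refine bd_mul hw (bd_mul hw ?_ hL) hC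
      rw [wn_neg]
      exact (wn_ofNat 6).le
    · exact bd_sub hw (bd_mul hw (wn_ofNat 8).le (bd_pow hw hL 3))
        (bd_mul hw (wn_ofNat 2).le (bd_pow hw hC 2))
    · exact bd_mul hw (bd_mul hw (bd_mul hw (wn_ofNat 4).le hL) hC) h0
  refine h3.trans ?_
  norm_num

include hl hc hρ hρ1 hg in
theorem wn_pa' : wn (w3 ρ g) (pa' (algebraMap ℝ (MvPolynomial (Fin 3) ℝ) l)
    (algebraMap ℝ _ c) (X 0)) ≤ 14 * ρ := by
  have hw := w3_nonneg hρ hg
  have h0 : wn (w3 ρ g) (X 0 : MvPolynomial (Fin 3) ℝ) ≤ ρ := bd_X rfl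
  have hL : wn (w3 ρ g) (algebraMap ℝ (MvPolynomial (Fin 3) ℝ) l) ≤ 1 := bd_am l hl
  have hC : wn (w3 ρ g) (algebraMap ℝ (MvPolynomial (Fin 3) ℝ) c) ≤ 1 := bd_am c hc
  have h3 : wn (w3 ρ g) (pa' (algebraMap ℝ (MvPolynomial (Fin 3) ℝ) l)
      (algebraMap ℝ _ c) (X 0)) ≤ 12 * 1 * ρ + 6 * 1 * ρ ^ 2 + 12 * 1 ^ 2 * ρ ^ 3 := by
    unfold pa'
    refine bd_sub hw (bd_sub hw (bd_mul hw (bd_mul hw ?_ hL) h0) ?_) ?_
    · rw [wn_neg]
      exact (wn_ofNat 12).le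
    · exact bd_mul hw (bd_mul hw (wn_ofNat 6).le hC) (bd_pow hw h0 2)
    · exact bd_mul hw (bd_mul hw (wn_ofNat 12).le (bd_pow hw hL 2)) (bd_pow hw h0 3)
  refine h3.trans ?_
  have h6 : ρ ^ 2 ≤ 1 / 5 * ρ := by nlinarith
  have h7 : ρ ^ 3 ≤ 1 / 25 * ρ := by nlinarith
  linarith

/-- The size of one application of the derivation. -/
noncomputable def cost (c ρ g : ℝ) : ℝ := 306 * (1 + (|c| + g) / ρ)

include hρ in
theorem cost_mul : cost c ρ g * ρ = 306 * (|c| + g + ρ) := by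
  unfold cost
  field_simp
  ring

include hρ hg in
theorem cost_ge : 306 ≤ cost c ρ g := by
  unfold cost
  have : 0 ≤ (|c| + g) / ρ := by positivity
  linarith

include hl hc hρ hρ1 hg hg1 in
theorem wn_W3 (i : Fin 3) : wn (w3 ρ g) (W3 l c (X i)) ≤ cost c ρ g * w3 ρ g i := by
  have hw := w3_nonneg hρ hg
  have h1 : wn (w3 ρ g) (X 1 : MvPolynomial (Fin 3) ℝ) ≤ g := bd_X rfl
  have h2 : wn (w3 ρ g) (X 2 : MvPolynomial (Fin 3) ℝ) ≤ 2 := bd_X rfl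
  have hr := wn_r3 hl hc hρ hρ1 hg hg1
  have hc0 := cost_ge (c := c) hρ hg
  have hcn := abs_nonneg c
  fin_cases i
  · change wn (w3 ρ g) (W3 l c (X 0)) ≤ cost c ρ g * ρ
    rw [W3_zero, cost_mul hρ]
    refine hr.trans ?_
    linarith
  · change wn (w3 ρ g) (W3 l c (X 1)) ≤ cost c ρ g * g
    rw [W3_one]
    refine (bd_mul hw h1 (wn_b3 hl hc hρ hρ1 hg hg1)).trans ?_
    rw [mul_comm]
    exact mul_le_mul_of_nonneg_right hc0 hg
  · change wn (w3 ρ g) (W3 l c (X 2)) ≤ cost c ρ g * 2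
    rw [W3_two, wn_neg]
    refine (bd_mul hw (bd_pow hw h2 2) (bd_mul hw (wn_pa' hl hc hρ hρ1 hg) hr)).trans ?_
    have h3 : |c| + g + ρ ≤ 3 := by linarith
    have h4 : ρ * (|c| + g + ρ) ≤ 1 / 5 * 3 := mul_le_mul hρ1 h3 (by positivity) (by norm_num)
    have h5 : cost c ρ g * ρ = 306 * (|c| + g + ρ) := cost_mul hρ
    have h6 : (|c| + g + ρ) ≤ cost c ρ g * (1 / 5) / 306 := by
      have : cost c ρ g * ρ ≤ cost c ρ g * (1 / 5) :=
        mul_le_mul_of_nonneg_left hρ1 (by linarith)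
      linarith
    nlinarith

end bounds

end Pool.Agent.Work.MP_f2148a_nt.M56.G4
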