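import Mathlib

set_option autoImplicit false

/-!
# MP_f2148a_nt, block G4: the power series of a derivation at a point (all proved)

For a derivation `D` of a commutative `ℝ`-algebra `R` and a point `e : R →ₐ[ℝ] ℝ` the map
`flow D e f = ∑ e (D^l f) t^l / l!` is a homomorphism `R → ℝ⟦t⟧` with `(flow f)' = flow (D f)`.
-/

namespace Pool.Agent.Work.MP_f2148a_nt.M56.G4

open PowerSeries

variable {R : Type*} [CommRing R] [Algebra ℝ R]

/-- The power series `∑ e (D^l f) t^l / l!`. -/
noncomputable def flowF (D : Derivation ℝ R R) (e : R →ₐ[ℝ] ℝ) (f : R) : ℝ⟦X⟧ :=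
  PowerSeries.mk fun l => e ((fun x => D x)^[l] f) / (l.factorial : ℝ)

theorem coeff_flowF (D : Derivation ℝ R R) (e : R →ₐ[ℝ] ℝ) (f : R) (l : ℕ) :
    coeff l (flowF D e f) = e ((fun x => D x)^[l] f) / (l.factorial : ℝ) := by
  rw [flowF, coeff_mk]

theorem coeff_zero_flowF (D : Derivation ℝ R R) (e : R →ₐ[ℝ] ℝ) (f : R) :
    coeff 0 (flowF D e f) = e f := by
  rw [coeff_flowF, Nat.factorial_zero, Nat.cast_one, div_one]
  rfl

theorem derivative_flowF (D : Derivation ℝ R R) (e : R →ₐ[ℝ] ℝ) (f : R) :
    derivative ℝ (flowF D e f) = flowF D e (D f) := by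
  ext l
  rw [coeff_derivative, coeff_flowF, coeff_flowF, Function.iterate_succ_apply,
    Nat.factorial_succ]
  push_cast
  have h1 : ((l.factorial : ℕ) : ℝ) ≠ 0 := Nat.cast_ne_zero.2 (Nat.factorial_ne_zero l)
  have h2 : (l : ℝ) + 1 ≠ 0 := by positivity
  field_simp

theorem coeff_succ_eq (p : ℝ⟦X⟧) (l : ℕ) :
    coeff (l + 1) p = coeff l (derivative ℝ p) / ((l : ℝ) + 1) := by
  rw [coeff_derivative]
  have h2 : (l : ℝ) + 1 ≠ 0 := by positivity
  field_simp

private theorem iter_add (D : Derivation ℝ R R) (f g : R) (l : ℕ) :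
    (fun x => D x)^[l] (f + g) = (fun x => D x)^[l] f + (fun x => D x)^[l] g := by
  induction l generalizing f g with
  | zero => rfl
  | succ l ih =>
    rw [Function.iterate_succ_apply, Function.iterate_succ_apply, Function.iterate_succ_apply,
      map_add, ih]

theorem flowF_add (D : Derivation ℝ R R) (e : R →ₐ[ℝ] ℝ) (f g : R) :
    flowF D e (f + g) = flowF D e f + flowF D e g := by
  ext l
  rw [map_add, coeff_flowF, coeff_flowF, coeff_flowF, iter_add, map_add, add_div]

theorem flowF_mul (D : Derivation ℝ R R) (e : R →ₐ[ℝ] ℝ) (f g : R) :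
    flowF D e (f * g) = flowF D e f * flowF D e g := by
  ext l
  induction l generalizing f g with
  | zero =>
    rw [coeff_zero_flowF, coeff_zero_eq_constantCoeff_apply, map_mul, map_mul,
      ← coeff_zero_eq_constantCoeff_apply, ← coeff_zero_eq_constantCoeff_apply,
      coeff_zero_flowF, coeff_zero_flowF]
  | succ l ih =>
    rw [coeff_succ_eq, coeff_succ_eq, derivative_flowF, D.leibniz, flowF_add, smul_eq_mul,
      smul_eq_mul, (derivative ℝ).leibniz, smul_eq_mul, smul_eq_mul, derivative_flowF,
      derivative_flowF, map_add, map_add, ih, ih]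

theorem flowF_algebraMap (D : Derivation ℝ R R) (e : R →ₐ[ℝ] ℝ) (c : ℝ) :
    flowF D e (algebraMap ℝ R c) = C c := by
  have h0 : ∀ l, coeff l (flowF D e (0 : R)) = 0 := by
    intro l
    have h1 := congrArg (coeff l) (flowF_add D e (0 : R) 0)
    rw [add_zero, map_add] at h1
    linarith
  ext l
  rcases l with _ | l
  · rw [coeff_zero_flowF, AlgHom.commutes, coeff_zero_eq_constantCoeff_apply, constantCoeff_C]
    rfl
  · rw [coeff_succ_eq, derivative_flowF, Derivation.map_algebraMap, h0, zero_div, coeff_C,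
      if_neg (Nat.succ_ne_zero l)]

/-- The homomorphism `f ↦ ∑ e (D^l f) t^l / l!`. -/
noncomputable def flow (D : Derivation ℝ R R) (e : R →ₐ[ℝ] ℝ) : R →ₐ[ℝ] ℝ⟦X⟧ where
  toFun := flowF D e
  map_one' := by
    have h := flowF_algebraMap D e 1
    rw [map_one, map_one] at h
    exact h
  map_mul' := flowF_mul D e
  map_zero' := by
    have h := flowF_algebraMap D e 0
    rw [map_zero, map_zero] at h
    exact h
  map_add' := flowF_add D e
  commutes' := flowF_algebraMap D e

theorem derivative_flow (D : Derivation ℝ R R) (e : R →ₐ[ℝ] ℝ) (f : R) :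
    derivative ℝ (flow D e f) = flow D e (D f) := derivative_flowF D e f

theorem constantCoeff_flow (D : Derivation ℝ R R) (e : R →ₐ[ℝ] ℝ) (f : R) :
    constantCoeff (flow D e f) = e f := by
  rw [← coeff_zero_eq_constantCoeff_apply]
  exact coeff_zero_flowF D e f

/-- The value of `D^l f` at the point is the constant coefficient of the `l`-th derivative. -/
theorem eval_iterate (D : Derivation ℝ R R) (e : R →ₐ[ℝ] ℝ) (f : R) (l : ℕ) :
    e ((fun x => D x)^[l] f) =
      constantCoeff ((fun p => derivative ℝ p)^[l] (flow D e f)) := by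
  induction l generalizing f with
  | zero => exact (constantCoeff_flow D e f).symm
  | succ l ih =>
    rw [Function.iterate_succ_apply, Function.iterate_succ_apply, ih]
    congr 2
    exact (derivative_flow D e f).symm

end Pool.Agent.Work.MP_f2148a_nt.M56.G4
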