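import Pool.Agent.Work.MP_f2148a_nt.M56.G4.Norm
import Pool.Agent.Work.MP_f2148a_nt.M56.G4.Flow

set_option autoImplicit false

/-!
# MP_f2148a_nt, block G4: iterates of a derivation of a polynomial ring (all proved)

`iter_bound`: if `wn w (D X_i) ≤ B * w i` and `deg (D X_i) ≤ κ + 1` then
`wn w (D^l p) ≤ (B * (deg p + κ * l)) ^ l * wn w p`.
`comm_of_X`: a homomorphism commutes with derivations if it does on the variables.
-/

namespace Pool.Agent.Work.MP_f2148a_nt.M56.G4

open MvPolynomial

variable {σ : Type*}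

/-- A homomorphism commutes with derivations if it does on the variables. -/
theorem comm_of_X {A : Type*} [CommRing A] [Algebra ℝ A]
    (D : Derivation ℝ (MvPolynomial σ ℝ) (MvPolynomial σ ℝ)) (d : Derivation ℝ A A)
    (χ : MvPolynomial σ ℝ →ₐ[ℝ] A) (h : ∀ i, d (χ (X i)) = χ (D (X i)))
    (p : MvPolynomial σ ℝ) : d (χ p) = χ (D p) := by
  induction p using MvPolynomial.induction_on with
  | C a =>
    rw [← algebraMap_eq, AlgHom.commutes, Derivation.map_algebraMap, Derivation.map_algebraMap,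
      map_zero]
  | add p q hp hq => rw [map_add, map_add, map_add, map_add, hp, hq]
  | mul_X p i hp =>
    rw [map_mul, d.leibniz, D.leibniz, map_add, smul_eq_mul, smul_eq_mul, smul_eq_mul,
      smul_eq_mul, map_mul, map_mul, hp, h]

/-- The iterated form of `comm_of_X`. -/
theorem comm_iterate {A : Type*} [CommRing A] [Algebra ℝ A]
    (D : Derivation ℝ (MvPolynomial σ ℝ) (MvPolynomial σ ℝ)) (d : Derivation ℝ A A)
    (χ : MvPolynomial σ ℝ →ₐ[ℝ] A) (h : ∀ i, d (χ (X i)) = χ (D (X i)))
    (p : MvPolynomial σ ℝ) (l : ℕ) :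
    (fun x => d x)^[l] (χ p) = χ ((fun x => D x)^[l] p) := by
  induction l generalizing p with
  | zero => rfl
  | succ l ih =>
    rw [Function.iterate_succ_apply, Function.iterate_succ_apply, comm_of_X D d χ h, ih]

theorem totalDegree_derivation (D : Derivation ℝ (MvPolynomial σ ℝ) (MvPolynomial σ ℝ)) {κ : ℕ}
    (hD : ∀ i, (D (X i)).totalDegree ≤ κ + 1) (p : MvPolynomial σ ℝ) :
    (D p).totalDegree ≤ p.totalDegree + κ := by
  classical
  have h1 : D p = ∑ m ∈ p.support, D (monomial m (p.coeff m)) := by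
    conv_lhs => rw [p.as_sum]
    rw [map_sum]
  rw [h1]
  refine totalDegree_finsetSum_le fun m hm => ?_
  have h0 : D = mkDerivation ℝ fun i => D (X i) := by
    refine derivation_ext fun i => ?_
    rw [mkDerivation_X]
  rw [h0, mkDerivation_monomial]
  refine (totalDegree_smul_le _ _).trans ?_
  rw [Finsupp.sum]
  refine totalDegree_finsetSum_le fun i hi => ?_
  rw [smul_eq_mul]
  refine (totalDegree_mul _ _).trans ?_
  have h3 : m = (m - Finsupp.single i 1) + Finsupp.single i 1 := by
    refine (tsub_add_cancel_of_le ?_).symm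
    rw [Finsupp.single_le_iff]
    exact Nat.one_le_iff_ne_zero.2 (Finsupp.mem_support_iff.1 hi)
  have h4 : m.degree = (m - Finsupp.single i 1).degree + 1 := by
    conv_lhs => rw [h3]
    rw [map_add, Finsupp.degree_single]
  have h5 : ((monomial (m - Finsupp.single i 1)) (m i : ℝ)).totalDegree ≤
      (m - Finsupp.single i 1).degree := totalDegree_monomial_le _ _
  have h6 : m.degree ≤ p.totalDegree := le_totalDegree hm
  have h7 := hD i
  omega

theorem iter_bound {w : σ → ℝ} (hw : ∀ i, 0 ≤ w i) {B : ℝ} (hB : 0 ≤ B)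
    (D : Derivation ℝ (MvPolynomial σ ℝ) (MvPolynomial σ ℝ))
    (hD : ∀ i, wn w (D (X i)) ≤ B * w i) {κ : ℕ} (hκ : ∀ i, (D (X i)).totalDegree ≤ κ + 1)
    (l : ℕ) (p : MvPolynomial σ ℝ) {d : ℕ} (hd : p.totalDegree ≤ d) :
    wn w ((fun x => D x)^[l] p) ≤ (B * (d + κ * l : ℕ)) ^ l * wn w p := by
  induction l generalizing p d with
  | zero =>
    rw [pow_zero, one_mul]
    exact le_rfl
  | succ l ih =>
    rw [Function.iterate_succ_apply]
    have h1 : (D p).totalDegree ≤ d + κ := (totalDegree_derivation D hκ p).trans (by omega)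
    refine (ih (D p) h1).trans ?_
    have h2 := wn_derivation hw hB D hD p hd
    have h3 : (B * ((d + κ + κ * l : ℕ) : ℝ)) ^ l * wn w (D p) ≤
        (B * ((d + κ * (l + 1) : ℕ) : ℝ)) ^ l * (B * d * wn w p) := by
      have : d + κ + κ * l = d + κ * (l + 1) := by ring
      rw [this]
      exact mul_le_mul_of_nonneg_left h2 (by positivity)
    refine h3.trans ?_
    have h4 : (d : ℝ) ≤ ((d + κ * (l + 1) : ℕ) : ℝ) := by exact_mod_cast Nat.le_add_right d _
    calc (B * ((d + κ * (l + 1) : ℕ) : ℝ)) ^ l * (B * d * wn w p)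
        ≤ (B * ((d + κ * (l + 1) : ℕ) : ℝ)) ^ l *
          (B * ((d + κ * (l + 1) : ℕ) : ℝ) * wn w p) :=
          mul_le_mul_of_nonneg_left (mul_le_mul_of_nonneg_right
            (mul_le_mul_of_nonneg_left h4 hB) (wn_nonneg hw p)) (by positivity)
      _ = _ := by rw [pow_succ]; ring

end Pool.Agent.Work.MP_f2148a_nt.M56.G4
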