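import Mathlib

set_option autoImplicit false

/-!
# MP_f2148a_nt, block G4: the weighted `l¹` norm of a polynomial (all proved)

`wn w p = ∑ |coefficient of x^m| * w^m`. `wn_mul`, `wn_add`, `abs_eval_le`, and the bound for derivations:
if `wn w (D X_i) ≤ B * w i` for all `i` then `wn w (D p) ≤ B * totalDegree p * wn w p`.
-/

namespace Pool.Agent.Work.MP_f2148a_nt.M56.G4

open MvPolynomial

variable {σ : Type*}

/-- The weight of a monomial. -/
noncomputable def wm (w : σ → ℝ) (m : σ →₀ ℕ) : ℝ := m.prod fun i k => w i ^ k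

/-- The weighted `l¹` norm. -/
noncomputable def wn (w : σ → ℝ) (p : MvPolynomial σ ℝ) : ℝ :=
  ∑ m ∈ p.support, |p.coeff m| * wm w m

theorem wm_zero (w : σ → ℝ) : wm w 0 = 1 := Finsupp.prod_zero_index

theorem wm_add (w : σ → ℝ) (m n : σ →₀ ℕ) : wm w (m + n) = wm w m * wm w n :=
  Finsupp.prod_add_index' (fun _ => pow_zero _) fun _ _ _ => pow_add _ _ _

theorem wm_single (w : σ → ℝ) (i : σ) (k : ℕ) : wm w (Finsupp.single i k) = w i ^ k :=
  Finsupp.prod_single_index (pow_zero _)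

theorem wm_nonneg {w : σ → ℝ} (hw : ∀ i, 0 ≤ w i) (m : σ →₀ ℕ) : 0 ≤ wm w m :=
  Finset.prod_nonneg fun i _ => pow_nonneg (hw i) _

theorem wn_eq_sum {w : σ → ℝ} (p : MvPolynomial σ ℝ) {s : Finset (σ →₀ ℕ)} (h : p.support ⊆ s) :
    wn w p = ∑ m ∈ s, |p.coeff m| * wm w m :=
  Finset.sum_subset h fun m _ hm => by
    rw [notMem_support_iff.1 hm, abs_zero, zero_mul]

theorem wn_nonneg {w : σ → ℝ} (hw : ∀ i, 0 ≤ w i) (p : MvPolynomial σ ℝ) : 0 ≤ wn w p :=
  Finset.sum_nonneg fun m _ => mul_nonneg (abs_nonneg _) (wm_nonneg hw m)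

@[simp] theorem wn_zero (w : σ → ℝ) : wn w (0 : MvPolynomial σ ℝ) = 0 := by
  simp [wn]

theorem wn_add {w : σ → ℝ} (hw : ∀ i, 0 ≤ w i) (p q : MvPolynomial σ ℝ) :
    wn w (p + q) ≤ wn w p + wn w q := by
  classical
  rw [wn_eq_sum (p + q) (support_add (p := p) (q := q)),
    wn_eq_sum p (Finset.subset_union_left (s₂ := q.support)),
    wn_eq_sum q (Finset.subset_union_right (s₁ := p.support)), ← Finset.sum_add_distrib]
  refine Finset.sum_le_sum fun m _ => ?_
  rw [← add_mul, coeff_add]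
  exact mul_le_mul_of_nonneg_right (abs_add_le _ _) (wm_nonneg hw m)

theorem wn_sum {w : σ → ℝ} (hw : ∀ i, 0 ≤ w i) {ι : Type*} (s : Finset ι)
    (f : ι → MvPolynomial σ ℝ) : wn w (∑ i ∈ s, f i) ≤ ∑ i ∈ s, wn w (f i) := by
  classical
  induction s using Finset.induction_on with
  | empty => simp
  | insert a s ha ih =>
    rw [Finset.sum_insert ha, Finset.sum_insert ha]
    exact (wn_add hw _ _).trans (by linarith)

theorem wn_monomial (w : σ → ℝ) (m : σ →₀ ℕ) (c : ℝ) :
    wn w (monomial m c) = |c| * wm w m := by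
  classical
  rw [wn_eq_sum (monomial m c) support_monomial_subset, Finset.sum_singleton, coeff_monomial,
    if_pos rfl]

theorem wn_C (w : σ → ℝ) (c : ℝ) : wn w (C c : MvPolynomial σ ℝ) = |c| := by
  rw [← monomial_zero', wn_monomial, wm_zero, mul_one]

theorem wn_one (w : σ → ℝ) : wn w (1 : MvPolynomial σ ℝ) = 1 := by
  rw [← C_1, wn_C, abs_one]

theorem wn_X (w : σ → ℝ) (i : σ) : wn w (X i : MvPolynomial σ ℝ) = w i := by
  rw [X, wn_monomial, abs_one, one_mul, wm_single, pow_one]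

theorem wn_mul {w : σ → ℝ} (hw : ∀ i, 0 ≤ w i) (p q : MvPolynomial σ ℝ) :
    wn w (p * q) ≤ wn w p * wn w q := by
  classical
  rw [mul_def, Finsupp.sum]
  refine (wn_sum hw _ _).trans ?_
  change _ ≤ (∑ m ∈ p.support, _) * _
  rw [Finset.sum_mul]
  refine Finset.sum_le_sum fun m _ => ?_
  rw [Finsupp.sum]
  refine (wn_sum hw _ _).trans ?_
  change _ ≤ _ * (∑ n ∈ q.support, _)
  rw [Finset.mul_sum]
  refine Finset.sum_le_sum fun n _ => ?_
  rw [wn_monomial, wm_add, abs_mul]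
  refine le_of_eq ?_
  change |p.coeff m| * |q.coeff n| * (wm w m * wm w n) = _
  ring

theorem wn_smul {w : σ → ℝ} (c : ℝ) (p : MvPolynomial σ ℝ) : wn w (c • p) = |c| * wn w p := by
  classical
  rw [wn_eq_sum (c • p) (support_smul), wn, Finset.mul_sum]
  refine Finset.sum_congr rfl fun m _ => ?_
  rw [coeff_smul, smul_eq_mul, abs_mul, mul_assoc]

theorem wn_pow {w : σ → ℝ} (hw : ∀ i, 0 ≤ w i) (p : MvPolynomial σ ℝ) (n : ℕ) :
    wn w (p ^ n) ≤ wn w p ^ n := by
  induction n with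
  | zero => rw [pow_zero, pow_zero, wn_one]
  | succ n ih =>
    rw [pow_succ, pow_succ]
    exact (wn_mul hw _ _).trans (mul_le_mul_of_nonneg_right ih (wn_nonneg hw p))

theorem abs_eval_le {w : σ → ℝ} {x : σ → ℝ} (hx : ∀ i, |x i| ≤ w i) (p : MvPolynomial σ ℝ) :
    |eval x p| ≤ wn w p := by
  rw [eval_eq]
  refine (Finset.abs_sum_le_sum_abs _ _).trans (Finset.sum_le_sum fun m _ => ?_)
  rw [abs_mul, Finset.abs_prod]
  refine mul_le_mul_of_nonneg_left ?_ (abs_nonneg _)
  refine Finset.prod_le_prod (fun i _ => abs_nonneg _) fun i _ => ?_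
  rw [abs_pow]
  exact pow_le_pow_left₀ (abs_nonneg _) (hx i) _

theorem wn_derivation_monomial {w : σ → ℝ} (hw : ∀ i, 0 ≤ w i) {B : ℝ}
    (D : Derivation ℝ (MvPolynomial σ ℝ) (MvPolynomial σ ℝ))
    (hD : ∀ i, wn w (D (X i)) ≤ B * w i) (m : σ →₀ ℕ) (c : ℝ) :
    wn w (D (monomial m c)) ≤ B * m.degree * (|c| * wm w m) := by
  classical
  have h0 : D = mkDerivation ℝ fun i => D (X i) := by
    refine derivation_ext fun i => ?_
    rw [mkDerivation_X]
  rw [h0, mkDerivation_monomial, wn_smul, Finsupp.sum]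
  have h1 := wn_sum hw m.support fun i =>
    (monomial (m - Finsupp.single i 1)) (m i : ℝ) • D (X i)
  have h2 : ∀ i ∈ m.support, wn w ((monomial (m - Finsupp.single i 1)) (m i : ℝ) • D (X i)) ≤
      (m i : ℝ) * (B * wm w m) := by
    intro i hi
    have h3 : m = (m - Finsupp.single i 1) + Finsupp.single i 1 := by
      refine (tsub_add_cancel_of_le ?_).symm
      rw [Finsupp.single_le_iff]
      exact Nat.one_le_iff_ne_zero.2 (Finsupp.mem_support_iff.1 hi)
    rw [smul_eq_mul]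
    refine (wn_mul hw _ _).trans ?_
    rw [wn_monomial, Nat.abs_cast]
    calc (m i : ℝ) * wm w (m - Finsupp.single i 1) * wn w (D (X i))
        ≤ (m i : ℝ) * wm w (m - Finsupp.single i 1) * (B * w i) :=
          mul_le_mul_of_nonneg_left (hD i)
            (mul_nonneg (Nat.cast_nonneg _) (wm_nonneg hw _))
      _ = (m i : ℝ) * (B * wm w m) := by
          conv_rhs => rw [h3]
          rw [wm_add, wm_single, pow_one]
          have h4 : ((m - Finsupp.single i 1 + Finsupp.single i 1 : σ →₀ ℕ) i : ℝ) = (m i : ℝ) := by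
            rw [← h3]
          rw [h4]
          ring
  calc |c| * wn w (∑ i ∈ m.support, (monomial (m - Finsupp.single i 1)) (m i : ℝ) • D (X i))
      ≤ |c| * ∑ i ∈ m.support, (m i : ℝ) * (B * wm w m) :=
        mul_le_mul_of_nonneg_left (h1.trans (Finset.sum_le_sum h2)) (abs_nonneg _)
    _ = B * m.degree * (|c| * wm w m) := by
        rw [← Finset.sum_mul, Finsupp.degree_apply]
        push_cast
        ring

/-- The norm of a derivative. -/
theorem wn_derivation {w : σ → ℝ} (hw : ∀ i, 0 ≤ w i) {B : ℝ} (hB : 0 ≤ B)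
    (D : Derivation ℝ (MvPolynomial σ ℝ) (MvPolynomial σ ℝ))
    (hD : ∀ i, wn w (D (X i)) ≤ B * w i) (p : MvPolynomial σ ℝ) {d : ℕ}
    (hd : p.totalDegree ≤ d) : wn w (D p) ≤ B * d * wn w p := by
  classical
  have h1 : D p = ∑ m ∈ p.support, D (monomial m (p.coeff m)) := by
    conv_lhs => rw [p.as_sum]
    rw [map_sum]
  rw [h1]
  refine (wn_sum hw _ _).trans ?_
  rw [wn, Finset.mul_sum]
  refine Finset.sum_le_sum fun m hm => ?_
  refine (wn_derivation_monomial hw D hD m _).trans ?_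
  refine mul_le_mul_of_nonneg_right (mul_le_mul_of_nonneg_left ?_ hB)
    (mul_nonneg (abs_nonneg _) (wm_nonneg hw m))
  have h2 : m.degree ≤ p.totalDegree := le_totalDegree hm
  exact_mod_cast h2.trans hd

end Pool.Agent.Work.MP_f2148a_nt.M56.G4
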