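import Pool.Agent.Work.MP_f2148a_nt.M56.G4.Iter

set_option autoImplicit false
set_option linter.unusedSimpArgs false

/-!
# MP_f2148a_nt, block G4: the flat derivation in the plane `(u, r)` (all proved)

`u = d₁/d₂`, `r = υ/ξ`, `F' = 3Δ d₂ ξ⁴ (u p₁(r) + p₂(r))`, `W u = -j(u)`, `W r = h(u,r)/2`.
The function `γ = u p₁(r) + p₂(r)` satisfies `W γ = γ b(u,r)`.
-/

namespace Pool.Agent.Work.MP_f2148a_nt.M56.G4

section generic

variable {A : Type*} [CommRing A]

/-- `p₁(r)` -/
def pa (l c r : A) : A := 1 - 6 * l * r ^ 2 - 2 * c * r ^ 3 - 3 * l ^ 2 * r ^ 4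

/-- `p₂(r)` -/
def pb (l c r : A) : A := 2 * r - c * r ^ 4 + 0 * l

/-- `p₁'(r)` -/
def pa' (l c r : A) : A := -12 * l * r - 6 * c * r ^ 2 - 12 * l ^ 2 * r ^ 3

/-- `p₂'(r)` -/
def pb' (l c r : A) : A := 2 - 4 * c * r ^ 3 + 0 * l

/-- `j(u)` -/
def jf (l c u : A) : A := (16 * l ^ 3 - c ^ 2) * u ^ 3 + 6 * l * c * u ^ 2 + 3 * l ^ 2 * u + c

/-- `h(u, r)` -/
def hf (l c u r : A) : A :=
  (c + 4 * l ^ 2 * u) + (2 * l ^ 2 - 2 * l * c * u) * r
    + (4 * l ^ 3 * u + 2 * l * c - c ^ 2 * u) * r ^ 2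

/-- `b(u, r)` -/
def bf (l c u r : A) : A :=
  -(16 * l ^ 3 - c ^ 2) * u ^ 2 + (-6 * l * c + (8 * l ^ 3 - 2 * c ^ 2) * r) * u
    + l ^ 2 + 4 * l * c * r

/-- `W γ = b γ` (twice). -/
theorem flat_id (l c u r : A) :
    -2 * jf l c u * pa l c r + (u * pa' l c r + pb' l c r) * hf l c u r =
      2 * ((u * pa l c r + pb l c r) * bf l c u r) := by
  unfold jf pa pa' pb' pb hf bf
  ring

variable {B : Type*} [CommRing B] (f : A →+* B)

theorem map_pa (l c r : A) : f (pa l c r) = pa (f l) (f c) (f r) := by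
  simp only [pa, map_sub, map_add, map_neg, map_mul, map_pow, map_one, map_zero, map_ofNat]
theorem map_pb (l c r : A) : f (pb l c r) = pb (f l) (f c) (f r) := by
  simp only [pb, map_sub, map_add, map_neg, map_mul, map_pow, map_one, map_zero, map_ofNat]
theorem map_pa' (l c r : A) : f (pa' l c r) = pa' (f l) (f c) (f r) := by
  simp only [pa', map_sub, map_add, map_neg, map_mul, map_pow, map_one, map_zero, map_ofNat]
theorem map_pb' (l c r : A) : f (pb' l c r) = pb' (f l) (f c) (f r) := by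
  simp only [pb', map_sub, map_add, map_neg, map_mul, map_pow, map_one, map_zero, map_ofNat]
theorem map_jf (l c u : A) : f (jf l c u) = jf (f l) (f c) (f u) := by
  simp only [jf, map_sub, map_add, map_neg, map_mul, map_pow, map_one, map_zero, map_ofNat]
theorem map_hf (l c u r : A) : f (hf l c u r) = hf (f l) (f c) (f u) (f r) := by
  simp only [hf, map_sub, map_add, map_neg, map_mul, map_pow, map_one, map_zero, map_ofNat]
theorem map_bf (l c u r : A) : f (bf l c u r) = bf (f l) (f c) (f u) (f r) := by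
  simp only [bf, map_sub, map_add, map_neg, map_mul, map_pow, map_one, map_zero, map_ofNat]

end generic

section der

variable {A : Type*} [CommRing A] [Algebra ℝ A] (D : Derivation ℝ A A)

theorem der_two : D (2 : A) = 0 := by
  have h := D.map_natCast 2
  rwa [Nat.cast_ofNat] at h

theorem der_three : D (3 : A) = 0 := by
  have h := D.map_natCast 3
  rwa [Nat.cast_ofNat] at h

theorem der_six : D (6 : A) = 0 := by
  have h := D.map_natCast 6
  rwa [Nat.cast_ofNat] at h

/-- chain rule for `p₁` -/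
theorem der_pa (l c : ℝ) (r : A) :
    D (pa (algebraMap ℝ A l) (algebraMap ℝ A c) r) =
      pa' (algebraMap ℝ A l) (algebraMap ℝ A c) r * D r := by
  unfold pa pa'
  simp only [map_sub, Derivation.map_one_eq_zero, Derivation.leibniz, Derivation.leibniz_pow,
    Derivation.map_algebraMap, der_two, der_three, der_six, smul_eq_mul, smul_zero, mul_zero,
    add_zero, zero_sub, nsmul_eq_mul]
  push_cast
  ring

/-- chain rule for `p₂` -/
theorem der_pb (l c : ℝ) (r : A) :
    D (pb (algebraMap ℝ A l) (algebraMap ℝ A c) r) =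
      pb' (algebraMap ℝ A l) (algebraMap ℝ A c) r * D r := by
  unfold pb pb'
  simp only [map_sub, map_add, Derivation.leibniz, Derivation.leibniz_pow,
    Derivation.map_algebraMap, der_two, smul_eq_mul, smul_zero, mul_zero, add_zero, zero_sub,
    nsmul_eq_mul, map_zero]
  push_cast
  ring

end der

end Pool.Agent.Work.MP_f2148a_nt.M56.G4
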